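import Mathlib

/-!
# The sigma-Helly number of the aligned sum

All spaces live inside an ambient type `U`; the sets `X₁`, `X₂` may overlap.
-/

namespace Pool.Agent.Results.MP_65fb70_co.BoundsAll

open Set

/-- `(X, C)` is an aligned space. -/
structure IsAligned {U : Type} (X : Set U) (C : Set (Set U)) : Prop where
  sub : ∀ A ∈ C, A ⊆ X
  empty : ∅ ∈ C
  whole : X ∈ C
  inter : ∀ F : Set (Set U), F ⊆ C → F.Nonempty → ⋂₀ F ∈ C
  chain : ∀ F : Set (Set U), F ⊆ C → F.Nonempty → IsChain (· ⊆ ·) F → ⋃₀ F ∈ C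

/-- The hull of `S`. -/
def hull {U : Type} (C : Set (Set U)) (S : Set U) : Set U := ⋂₀ {A | A ∈ C ∧ S ⊆ A}

/-- The `σ`-core of `S`. -/
def core {U : Type} (C : Set (Set U)) (σ : ℕ) (S : Set U) : Set U :=
  {z | ∀ M : Set U, M ⊆ S → M.encard ≤ σ → z ∈ hull C (S \ M)}

/-- The `σ`-Helly number of `(X, C)`. -/
noncomputable def helly {U : Type} (X : Set U) (C : Set (Set U)) (σ : ℕ) : ℕ∞ :=
  sInf {k : ℕ∞ | ∃ j : ℕ, k = j ∧ ∀ S : Set U, S ⊆ X → (j : ℕ∞) + 1 ≤ S.encard →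
    (core C σ S).Nonempty}

/-- The convex sets of the aligned sum; its ground set is `X₁ ∪ X₂`. -/
def sumConv {U : Type} (X₁ : Set U) (C₁ : Set (Set U)) (X₂ : Set U) (C₂ : Set (Set U)) :
    Set (Set U) :=
  {D | ∃ A ∈ C₁, ∃ B ∈ C₂, D = (A \ X₂) ∪ (B \ X₁) ∪ (A ∩ B)}

section basic

variable {U : Type} {X : Set U} {C : Set (Set U)}

theorem hull_mono {S T : Set U} (h : S ⊆ T) : hull C S ⊆ hull C T := by
  intro z hz A hA
  exact hz A ⟨hA.1, h.trans hA.2⟩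

theorem subset_hull (S : Set U) : S ⊆ hull C S := fun _ hz _ hA => hA.2 hz

theorem hull_mem (hC : IsAligned X C) {S : Set U} (hS : S ⊆ X) : hull C S ∈ C :=
  hC.inter _ (fun _ hA => hA.1) ⟨X, hC.whole, hS⟩

theorem hull_empty (hC : IsAligned X C) : hull C ∅ = ∅ :=
  subset_eq_empty (fun _ hz => hz ∅ ⟨hC.empty, Subset.rfl⟩) rfl

theorem hull_sub (hC : IsAligned X C) {S : Set U} (hS : S ⊆ X) : hull C S ⊆ X :=
  fun _ hz => hz X ⟨hC.whole, hS⟩

theorem hull_trans (hC : IsAligned X C) {S : Set U} (hS : S ⊆ X) {u v : U}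
    (hu : u ∈ hull C {v}) (hv : v ∈ hull C S) : u ∈ hull C S :=
  hu _ ⟨hull_mem hC hS, singleton_subset_iff.2 hv⟩

theorem core_sub (hC : IsAligned X C) {σ : ℕ} {S : Set U} (hS : S ⊆ X) : core C σ S ⊆ X := by
  intro z hz
  have := hz ∅ (empty_subset _) (by simp)
  rw [sdiff_empty] at this
  exact hull_sub hC hS this

theorem core_small (hC : IsAligned X C) {σ : ℕ} {S : Set U} (hS : S.encard ≤ σ) :
    core C σ S = ∅ := by
  refine subset_eq_empty (fun z hz => ?_) rfl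
  have := hz S Subset.rfl hS
  rw [sdiff_self, hull_empty hC] at this
  exact this

theorem core_mono {σ : ℕ} {S T : Set U} (h : S ⊆ T) : core C σ S ⊆ core C σ T := by
  intro z hz M _ hM
  have h1 := hz (M ∩ S) inter_subset_right ((encard_le_encard inter_subset_left).trans hM)
  refine hull_mono ?_ h1
  rintro x ⟨hx, hxM⟩
  exact ⟨h hx, fun hm => hxM ⟨hm, hx⟩⟩

theorem helly_le {σ : ℕ} {j : ℕ}
    (h : ∀ S : Set U, S ⊆ X → (j : ℕ∞) + 1 ≤ S.encard → (core C σ S).Nonempty) :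
    helly X C σ ≤ j := sInf_le ⟨j, rfl, h⟩

theorem le_helly {σ : ℕ} {S : Set U} (hS : S ⊆ X) (h : core C σ S = ∅) :
    S.encard ≤ helly X C σ := by
  refine le_sInf ?_
  rintro k ⟨j, rfl, hj⟩
  by_contra hcon
  rw [not_le] at hcon
  have h1 : (j : ℕ∞) + 1 ≤ S.encard := Order.add_one_le_of_lt hcon
  have := hj S hS h1
  rw [h] at this
  exact Set.not_nonempty_empty this

theorem helly_le_encard {σ : ℕ} : helly X C σ ≤ X.encard := by
  by_cases hX : X.encard = ⊤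
  · rw [hX]
    exact le_top
  · obtain ⟨j, hj⟩ := ENat.ne_top_iff_exists.1 hX
    rw [← hj]
    refine helly_le (fun S hS h => ?_)
    exfalso
    have h1 := encard_le_encard hS
    rw [← hj] at h1
    have h2 := h.trans h1
    have h3 : j + 1 ≤ j := by exact_mod_cast h2
    omega

theorem helly_anti {X' : Set U} {C' : Set (Set U)} {σ : ℕ}
    (h : ∀ S : Set U, S ⊆ X' → S ⊆ X ∧ ((core C σ S).Nonempty → (core C' σ S).Nonempty)) :
    helly X' C' σ ≤ helly X C σ := by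
  refine le_sInf ?_
  rintro k ⟨j, rfl, hj⟩
  exact helly_le (fun S hS hc => (h S hS).2 (hj S (h S hS).1 hc))

/-- If the `σ`-Helly number is at least `j + 1` there is a large set with empty core. -/
theorem exists_of_lt {σ : ℕ} {j : ℕ} (h : (j : ℕ∞) < helly X C σ) :
    ∃ S : Set U, S ⊆ X ∧ (j : ℕ∞) + 1 ≤ S.encard ∧ core C σ S = ∅ := by
  by_contra hcon
  push Not at hcon
  exact absurd (helly_le hcon) (not_le.2 h)

end basic

section sums

variable {U : Type} {X₁ X₂ : Set U} {C₁ C₂ : Set (Set U)}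

theorem can1 {a b : ℕ∞} (h : a + 1 ≤ b + 1) : a ≤ b :=
  (ENat.add_le_add_iff_right ENat.one_ne_top).1 h

theorem can2 {a b : ℕ∞} (h : a + 2 ≤ b + 2) : a ≤ b := by
  refine (ENat.add_le_add_iff_right (k := 2) ?_).1 h
  exact ENat.natCast_ne_top 2

theorem sumConv_comm : sumConv X₁ C₁ X₂ C₂ = sumConv X₂ C₂ X₁ C₁ := by
  ext D
  constructor
  · rintro ⟨A, hA, B, hB, rfl⟩
    exact ⟨B, hB, A, hA, by rw [union_comm (A \ X₂), inter_comm]⟩
  · rintro ⟨A, hA, B, hB, rfl⟩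
    exact ⟨B, hB, A, hA, by rw [union_comm (A \ X₁), inter_comm]⟩

theorem mem_hull_sum (h₁ : IsAligned X₁ C₁) (h₂ : IsAligned X₂ C₂) {T : Set U}
    (hT : T ⊆ X₁ ∪ X₂) (z : U) : z ∈ hull (sumConv X₁ C₁ X₂ C₂) T ↔
      (z ∈ hull C₁ (T ∩ X₁) ∧ z ∉ X₂) ∨ (z ∈ hull C₂ (T ∩ X₂) ∧ z ∉ X₁) ∨
      (z ∈ hull C₁ (T ∩ X₁) ∧ z ∈ hull C₂ (T ∩ X₂)) := by
  constructor
  · intro hz
    have hm : (hull C₁ (T ∩ X₁) \ X₂) ∪ (hull C₂ (T ∩ X₂) \ X₁) ∪
        (hull C₁ (T ∩ X₁) ∩ hull C₂ (T ∩ X₂)) ∈ sumConv X₁ C₁ X₂ C₂ :=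
      ⟨_, hull_mem h₁ inter_subset_right, _, hull_mem h₂ inter_subset_right, rfl⟩
    have hs : T ⊆ (hull C₁ (T ∩ X₁) \ X₂) ∪ (hull C₂ (T ∩ X₂) \ X₁) ∪
        (hull C₁ (T ∩ X₁) ∩ hull C₂ (T ∩ X₂)) := by
      intro t ht
      by_cases a1 : t ∈ X₁
      · have b1 : t ∈ hull C₁ (T ∩ X₁) := subset_hull _ ⟨ht, a1⟩
        by_cases a2 : t ∈ X₂
        · exact Or.inr ⟨b1, subset_hull _ ⟨ht, a2⟩⟩
        · exact Or.inl (Or.inl ⟨b1, a2⟩)
      · have a2 : t ∈ X₂ := (hT ht).resolve_left a1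
        exact Or.inl (Or.inr ⟨subset_hull _ ⟨ht, a2⟩, a1⟩)
    rcases hz _ ⟨hm, hs⟩ with (h | h) | h
    · exact Or.inl h
    · exact Or.inr (Or.inl h)
    · exact Or.inr (Or.inr h)
  · rintro hz D ⟨⟨A, hA, B, hB, rfl⟩, hTD⟩
    have hTA : T ∩ X₁ ⊆ A := by
      rintro t ⟨ht, ht1⟩
      rcases hTD ht with (h | h) | h
      · exact h.1
      · exact absurd ht1 h.2
      · exact h.1
    have hTB : T ∩ X₂ ⊆ B := by
      rintro t ⟨ht, ht1⟩
      rcases hTD ht with (h | h) | h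
      · exact absurd ht1 h.2
      · exact h.1
      · exact h.2
    rcases hz with h | h | h
    · exact Or.inl (Or.inl ⟨h.1 A ⟨hA, hTA⟩, h.2⟩)
    · exact Or.inl (Or.inr ⟨h.1 B ⟨hB, hTB⟩, h.2⟩)
    · exact Or.inr ⟨h.1 A ⟨hA, hTA⟩, h.2 B ⟨hB, hTB⟩⟩

theorem core_restrict {C : Set (Set U)} {X S : Set U} {σ : ℕ} {z : U}
    (h : ∀ M : Set U, M ⊆ S → M.encard ≤ σ → z ∈ hull C ((S \ M) ∩ X)) :
    z ∈ core C σ (S ∩ X) := by
  intro M hM hc
  have := h M (hM.trans inter_subset_left) hc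
  refine hull_mono ?_ this
  rintro x ⟨⟨h1, h2⟩, h3⟩
  exact ⟨⟨h1, h3⟩, h2⟩

theorem core_extend {C : Set (Set U)} {X S : Set U} {σ : ℕ} {z : U}
    (h : z ∈ core C σ (S ∩ X)) {M : Set U} (hc : M.encard ≤ σ) :
    z ∈ hull C ((S \ M) ∩ X) := by
  have := h (M ∩ (S ∩ X)) inter_subset_right ((encard_le_encard inter_subset_left).trans hc)
  refine hull_mono ?_ this
  rintro x ⟨⟨h1, h2⟩, h3⟩
  exact ⟨⟨h1, fun hm => h3 ⟨hm, h1, h2⟩⟩, h2⟩

theorem mem_core_sum (h₁ : IsAligned X₁ C₁) (h₂ : IsAligned X₂ C₂) {S : Set U}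
    (hS : S ⊆ X₁ ∪ X₂) (σ : ℕ) (z : U) : z ∈ core (sumConv X₁ C₁ X₂ C₂) σ S ↔
      (z ∈ core C₁ σ (S ∩ X₁) ∧ z ∉ X₂) ∨ (z ∈ core C₂ σ (S ∩ X₂) ∧ z ∉ X₁) ∨
      (z ∈ core C₁ σ (S ∩ X₁) ∧ z ∈ core C₂ σ (S ∩ X₂)) := by
  constructor
  · intro hz
    have key : ∀ M : Set U, M ⊆ S → M.encard ≤ σ →
        (z ∈ hull C₁ ((S \ M) ∩ X₁) ∧ z ∉ X₂) ∨ (z ∈ hull C₂ ((S \ M) ∩ X₂) ∧ z ∉ X₁) ∨
        (z ∈ hull C₁ ((S \ M) ∩ X₁) ∧ z ∈ hull C₂ ((S \ M) ∩ X₂)) := fun M hM hc =>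
      (mem_hull_sum h₁ h₂ (sdiff_subset.trans hS) z).1 (hz M hM hc)
    by_cases a2 : z ∈ X₂
    · by_cases a1 : z ∈ X₁
      · refine Or.inr (Or.inr ⟨core_restrict (fun M hM hc => ?_),
          core_restrict (fun M hM hc => ?_)⟩)
        · rcases key M hM hc with h | h | h
          · exact h.1
          · exact absurd a1 h.2
          · exact h.1
        · rcases key M hM hc with h | h | h
          · exact absurd a2 h.2
          · exact h.1
          · exact h.2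
      · refine Or.inr (Or.inl ⟨core_restrict (fun M hM hc => ?_), a1⟩)
        rcases key M hM hc with h | h | h
        · exact absurd a2 h.2
        · exact h.1
        · exact h.2
    · refine Or.inl ⟨core_restrict (fun M hM hc => ?_), a2⟩
      rcases key M hM hc with h | h | h
      · exact h.1
      · exact absurd (hull_sub h₂ inter_subset_right h.1) a2
      · exact h.1
  · intro hz M hM hc
    rw [mem_hull_sum h₁ h₂ (sdiff_subset.trans hS)]
    rcases hz with h | h | h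
    · exact Or.inl ⟨core_extend h.1 hc, h.2⟩
    · exact Or.inr (Or.inl ⟨core_extend h.1 hc, h.2⟩)
    · exact Or.inr (Or.inr ⟨core_extend h.1 hc, core_extend h.2 hc⟩)

theorem core_sum_small (h₁ : IsAligned X₁ C₁) (h₂ : IsAligned X₂ C₂) {S : Set U}
    (hS : S ⊆ X₁ ∪ X₂) {σ : ℕ} (a₁ : (S ∩ X₁).encard ≤ σ) (a₂ : (S ∩ X₂).encard ≤ σ) :
    core (sumConv X₁ C₁ X₂ C₂) σ S = ∅ := by
  refine subset_eq_empty (fun z hz => ?_) rfl
  rw [mem_core_sum h₁ h₂ hS, core_small h₁ a₁, core_small h₂ a₂] at hz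
  simp at hz

theorem core_single {C : Set (Set U)} {σ : ℕ} {S : Set U} {z g : U}
    (hz : z ∈ core C σ S) (hc : S.encard ≤ σ + 1) (hg : g ∈ S) : z ∈ hull C {g} := by
  have h1 : (S \ {g}).encard ≤ σ := by
    have := encard_sdiff_singleton_add_one hg
    rw [← this] at hc
    exact can1 hc
  have h2 := hz (S \ {g}) sdiff_subset h1
  refine hull_mono ?_ h2
  rintro x ⟨hx, hx2⟩
  by_contra hxg
  exact hx2 ⟨hx, hxg⟩

theorem core_of_all {C : Set (Set U)} {σ : ℕ} {P : Set U} {u : U}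
    (hP : (σ : ℕ∞) + 1 ≤ P.encard) (h : ∀ f ∈ P, u ∈ hull C {f}) : u ∈ core C σ P := by
  intro M hM hc
  have h1 : (P \ M).Nonempty := by
    by_contra hcon
    rw [not_nonempty_iff_eq_empty, sdiff_eq_empty] at hcon
    have h2 := hP.trans ((encard_le_encard hcon).trans hc)
    have h3 : σ + 1 ≤ σ := by exact_mod_cast h2
    omega
  obtain ⟨f, hf⟩ := h1
  exact hull_mono (singleton_subset_iff.2 hf) (h f hf.1)

/-- A point of the core of `P₁` lies in `X₂ \ X₁` when `P₁` has empty core in `X₁`. -/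
theorem outside (h₁ : IsAligned X₁ C₁) (h₂ : IsAligned X₂ C₂) {σ : ℕ} {P : Set U}
    (hP : P ⊆ X₁) (he : core C₁ σ P = ∅) {z : U}
    (hz : z ∈ core (sumConv X₁ C₁ X₂ C₂) σ P) : z ∈ X₂ ∧ z ∉ X₁ := by
  rw [mem_core_sum h₁ h₂ (hP.trans subset_union_left), inter_eq_left.2 hP, he] at hz
  simp only [mem_empty_iff_false, false_and, false_or, or_false] at hz
  exact ⟨core_sub h₂ inter_subset_right hz.1, hz.2⟩

/-- The bound `σ + 1`. -/
theorem bound_one (h₁ : IsAligned X₁ C₁) (h₂ : IsAligned X₂ C₂) {σ : ℕ} (hσ : 1 ≤ σ)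
    {P₁ P₂ : Set U} (hP₁ : P₁ ⊆ X₁) (hP₂ : P₂ ⊆ X₂) (hc₁ : (σ : ℕ∞) + 1 ≤ P₁.encard)
    (hc₂ : (σ : ℕ∞) + 1 ≤ P₂.encard) (he₁ : core C₁ σ P₁ = ∅) (he₂ : core C₂ σ P₂ = ∅) :
    (σ : ℕ∞) + 1 ≤ helly (X₁ ∪ X₂) (sumConv X₁ C₁ X₂ C₂) σ := by
  by_cases f₁ : core (sumConv X₁ C₁ X₂ C₂) σ P₁ = ∅
  · exact hc₁.trans (le_helly (hP₁.trans subset_union_left) f₁)
  by_cases f₂ : core (sumConv X₁ C₁ X₂ C₂) σ P₂ = ∅
  · exact hc₂.trans (le_helly (hP₂.trans subset_union_right) f₂)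
  obtain ⟨z, hz⟩ := nonempty_iff_ne_empty.2 f₁
  obtain ⟨w, hw⟩ := nonempty_iff_ne_empty.2 f₂
  have hz' := outside h₁ h₂ hP₁ he₁ hz
  rw [sumConv_comm] at hw
  have hw' := outside h₂ h₁ hP₂ he₂ hw
  have hne : z ≠ w := by
    rintro rfl
    exact hz'.2 hw'.1
  have hsub : ({z, w} : Set U) ⊆ X₁ ∪ X₂ := by
    rintro x (rfl | rfl)
    · exact Or.inr hz'.1
    · exact Or.inl hw'.1
  have hle : ({z, w} : Set U).encard ≤ (σ : ℕ∞) + 1 := by
    rw [encard_pair hne]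
    have : 2 ≤ σ + 1 := by omega
    exact_mod_cast this
  obtain ⟨S, hS1, hS2, hS3⟩ := exists_superset_subset_encard_eq hsub hle
    (hc₁.trans (encard_le_encard (hP₁.trans subset_union_left)))
  rw [← hS3]
  have hrem : ∀ x : U, x ∈ S → (S \ {x}).encard ≤ σ := by
    intro x hx
    have := encard_sdiff_singleton_add_one hx
    rw [hS3] at this
    exact can1 this.le
  refine le_helly hS2 (core_sum_small h₁ h₂ hS2 ?_ ?_)
  · refine (encard_le_encard ?_).trans (hrem z (hS1 (Or.inl rfl)))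
    rintro x ⟨hx, hx1⟩
    refine ⟨hx, ?_⟩
    rintro rfl
    exact hz'.2 hx1
  · refine (encard_le_encard ?_).trans (hrem w (hS1 (Or.inr rfl)))
    rintro x ⟨hx, hx1⟩
    refine ⟨hx, ?_⟩
    rintro rfl
    exact hw'.2 hx1

/-- If one space has two private points and the other has one, some large set has empty core. -/
theorem case_two (h₁ : IsAligned X₁ C₁) (h₂ : IsAligned X₂ C₂) {σ : ℕ} (hσ : 2 ≤ σ)
    (H : ∀ S : Set U, S ⊆ X₁ ∪ X₂ → (σ : ℕ∞) + 2 ≤ S.encard →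
      (core (sumConv X₁ C₁ X₂ C₂) σ S).Nonempty)
    {w z₀ z₁ : U} (hw : w ∈ X₁ ∧ w ∉ X₂) (hz₀ : z₀ ∈ X₂ ∧ z₀ ∉ X₁) (hz₁ : z₁ ∈ X₂ ∧ z₁ ∉ X₁)
    (hne : z₀ ≠ z₁) {P : Set U} (hP : P ⊆ X₂) (hc : P.encard = (σ : ℕ∞) + 2)
    (he : core C₂ σ P = ∅) : False := by
  have key : ∀ z z' f : U, (z ∈ X₂ ∧ z ∉ X₁) → (z' ∈ X₂ ∧ z' ∉ X₁) → z ≠ z' → f ∈ X₂ →
      ∃ u : U, (u ∈ X₂ ∧ u ∉ X₁) ∧ u ∈ hull C₂ {z} ∧ u ∈ hull C₂ {f} := by
    intro z z' f hz hz' hzz hf
    have hsub : ({w, z, z', f} : Set U) ⊆ insert w X₂ := by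
      rintro x (rfl | rfl | rfl | rfl)
      · exact Or.inl rfl
      · exact Or.inr hz.1
      · exact Or.inr hz'.1
      · exact Or.inr hf
    have hle : ({w, z, z', f} : Set U).encard ≤ (σ : ℕ∞) + 2 := by
      have h4 : ({w, z, z', f} : Set U).encard ≤ 4 := by
        refine (encard_insert_le _ _).trans ?_
        refine (add_le_add_left ((encard_insert_le _ _).trans
          (add_le_add_left ((encard_insert_le _ _).trans
          (add_le_add_left (encard_singleton f).le 1)) 1)) 1).trans ?_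
        norm_num
      refine h4.trans ?_
      have : 4 ≤ σ + 2 := by omega
      exact_mod_cast this
    obtain ⟨S, hS1, hS2, hS3⟩ := exists_superset_subset_encard_eq hsub hle
      (by rw [← hc]; exact encard_le_encard (hP.trans (subset_insert _ _)))
    have hSU : S ⊆ X₁ ∪ X₂ := by
      intro x hx
      rcases hS2 hx with rfl | hx2
      · exact Or.inl hw.1
      · exact Or.inr hx2
    obtain ⟨u, hu⟩ := H S hSU hS3.ge
    have hwS : w ∈ S := hS1 (by simp)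
    have hzS : z ∈ S := hS1 (by simp)
    have hz'S : z' ∈ S := hS1 (by simp)
    have hfS : f ∈ S := hS1 (by simp)
    have c1 : (S ∩ X₂).encard ≤ (σ : ℕ∞) + 1 := by
      have h5 := encard_sdiff_singleton_add_one hwS
      rw [hS3] at h5
      have h6 : (S \ {w}).encard + 1 = ((σ : ℕ∞) + 1) + 1 := by
        rw [h5, add_assoc]
        norm_num
      refine (encard_le_encard ?_).trans (can1 h6.le)
      rintro x ⟨hx, hx1⟩
      refine ⟨hx, ?_⟩
      rintro rfl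
      exact hw.2 hx1
    have c2 : (S ∩ X₁).encard ≤ σ := by
      have h5 := encard_sdiff_singleton_add_one hzS
      have h8 := encard_sdiff_singleton_add_one (s := S \ {z}) (a := z') ⟨hz'S, fun h => hzz h.symm⟩
      rw [hS3, ← h8] at h5
      have h6 : ((S \ {z}) \ {z'}).encard + 2 = (σ : ℕ∞) + 2 := by
        rw [← h5, add_assoc]
        norm_num
      refine (encard_le_encard ?_).trans (can2 h6.le)
      rintro x ⟨hx, hx1⟩
      refine ⟨⟨hx, ?_⟩, ?_⟩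
      · rintro rfl
        exact hz.2 hx1
      · rintro rfl
        exact hz'.2 hx1
    rw [mem_core_sum h₁ h₂ hSU, core_small h₁ c2] at hu
    simp only [mem_empty_iff_false, false_and, false_or, or_false] at hu
    refine ⟨u, ⟨core_sub h₂ inter_subset_right hu.1, hu.2⟩, ?_, ?_⟩
    · exact core_single hu.1 c1 ⟨hzS, hz.1⟩
    · exact core_single hu.1 c1 ⟨hfS, hf⟩
  have key2 : ∀ z f : U, (z ∈ X₂ ∧ z ∉ X₁) → f ∈ X₂ →
      ∃ u : U, (u ∈ X₂ ∧ u ∉ X₁) ∧ u ∈ hull C₂ {z} ∧ u ∈ hull C₂ {f} := by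
    intro z f hz hf
    by_cases h0 : z = z₀
    · exact key z z₁ f hz hz₁ (by rw [h0]; exact hne) hf
    · exact key z z₀ f hz hz₀ h0 hf
  have hfin : P.Finite := by
    refine finite_of_encard_eq_coe (k := σ + 2) ?_
    rw [hc]
    norm_cast
  have main : ∀ F : Set U, F.Finite → F ⊆ X₂ →
      ∃ u : U, (u ∈ X₂ ∧ u ∉ X₁) ∧ ∀ f ∈ F, u ∈ hull C₂ {f} := by
    intro F hF
    induction F, hF using Set.Finite.induction_on with
    | empty => exact fun _ => ⟨z₀, hz₀, fun f hf => absurd hf (notMem_empty f)⟩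
    | @insert a F ha hF ih =>
      intro hsub
      obtain ⟨u, hu, hall⟩ := ih ((subset_insert _ _).trans hsub)
      obtain ⟨v, hv, hv1, hv2⟩ := key2 u a hu (hsub (mem_insert _ _))
      refine ⟨v, hv, ?_⟩
      rintro f (rfl | hf)
      · exact hv2
      · exact hull_trans h₂ (singleton_subset_iff.2 (hsub (Or.inr hf))) hv1 (hall f hf)
  obtain ⟨u, -, hall⟩ := main P hfin hP
  have : u ∈ core C₂ σ P := by
    refine core_of_all ?_ hall
    rw [hc]
    gcongr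
    norm_num
  rw [he] at this
  exact this

/-- The case in which each space has exactly one private point. -/
theorem case_one (h₁ : IsAligned X₁ C₁) (h₂ : IsAligned X₂ C₂) {σ : ℕ} (hσ : 2 ≤ σ)
    (H : ∀ S : Set U, S ⊆ X₁ ∪ X₂ → (σ : ℕ∞) + 2 ≤ S.encard →
      (core (sumConv X₁ C₁ X₂ C₂) σ S).Nonempty)
    {w z : U} (hw : w ∈ X₁ ∧ w ∉ X₂) (hz : z ∈ X₂ ∧ z ∉ X₁)
    (uw : ∀ x, x ∈ X₁ → x ∉ X₂ → x = w) (uz : ∀ x, x ∈ X₂ → x ∉ X₁ → x = z)
    {P₁ P₂ : Set U} (hP₁ : P₁ ⊆ X₁) (hc₁ : P₁.encard = (σ : ℕ∞) + 2)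
    (he₁ : core C₁ σ P₁ = ∅) (hP₂ : P₂ ⊆ X₂) (hc₂ : P₂.encard = (σ : ℕ∞) + 2)
    (he₂ : core C₂ σ P₂ = ∅) : False := by
  have hσ2 : (σ : ℕ∞) + 1 ≤ (σ : ℕ∞) + 2 := by
    gcongr
    norm_num
  have hwz : w ≠ z := by
    rintro rfl
    exact hz.2 hw.1
  have key : ∀ s t : U, s ∈ X₁ → s ∈ X₂ → t ∈ X₁ → t ∈ X₂ → w ∉ hull C₁ {s} → z ∉ hull C₂ {t} →
      ∃ u : U, u ∈ X₁ ∧ u ∈ X₂ ∧ u ∈ hull C₁ {s} ∧ u ∈ hull C₁ {t} ∧ u ∈ hull C₁ {w} ∧
        u ∈ hull C₂ {s} ∧ u ∈ hull C₂ {t} := by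
    intro s t hs1 hs2 ht1 ht2 hws hzt
    have hsub : ({w, z, s, t} : Set U) ⊆ X₁ ∪ X₂ := by
      rintro x (rfl | rfl | rfl | rfl)
      · exact Or.inl hw.1
      · exact Or.inr hz.1
      · exact Or.inl hs1
      · exact Or.inl ht1
    have hle : ({w, z, s, t} : Set U).encard ≤ (σ : ℕ∞) + 2 := by
      have h4 : ({w, z, s, t} : Set U).encard ≤ 4 := by
        refine (encard_insert_le _ _).trans ?_
        refine (add_le_add_left ((encard_insert_le _ _).trans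
          (add_le_add_left ((encard_insert_le _ _).trans
          (add_le_add_left (encard_singleton t).le 1)) 1)) 1).trans ?_
        norm_num
      refine h4.trans ?_
      have : 4 ≤ σ + 2 := by omega
      exact_mod_cast this
    obtain ⟨S, hS1, hS2, hS3⟩ := exists_superset_subset_encard_eq hsub hle
      (by rw [← hc₁]; exact encard_le_encard (hP₁.trans subset_union_left))
    obtain ⟨u, hu⟩ := H S hS2 hS3.ge
    have hwS : w ∈ S := hS1 (by simp)
    have hzS : z ∈ S := hS1 (by simp)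
    have hsS : s ∈ S := hS1 (by simp)
    have htS : t ∈ S := hS1 (by simp)
    have hrem : ∀ x : U, x ∈ S → (S \ {x}).encard ≤ (σ : ℕ∞) + 1 := by
      intro x hx
      have h5 := encard_sdiff_singleton_add_one hx
      rw [hS3] at h5
      have h6 : (S \ {x}).encard + 1 = ((σ : ℕ∞) + 1) + 1 := by
        rw [h5, add_assoc]
        norm_num
      exact can1 h6.le
    have c2 : (S ∩ X₂).encard ≤ (σ : ℕ∞) + 1 := by
      refine (encard_le_encard ?_).trans (hrem w hwS)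
      rintro x ⟨hx, hx1⟩
      refine ⟨hx, ?_⟩
      rintro rfl
      exact hw.2 hx1
    have c1 : (S ∩ X₁).encard ≤ (σ : ℕ∞) + 1 := by
      refine (encard_le_encard ?_).trans (hrem z hzS)
      rintro x ⟨hx, hx1⟩
      refine ⟨hx, ?_⟩
      rintro rfl
      exact hz.2 hx1
    rw [mem_core_sum h₁ h₂ hS2] at hu
    rcases hu with hu | hu | hu
    · exfalso
      have hu1 : u ∈ X₁ := core_sub h₁ inter_subset_right hu.1
      have huw := uw u hu1 hu.2
      rw [huw] at hu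
      exact hws (core_single hu.1 c1 ⟨hsS, hs1⟩)
    · exfalso
      have hu2 : u ∈ X₂ := core_sub h₂ inter_subset_right hu.1
      have huz := uz u hu2 hu.2
      rw [huz] at hu
      exact hzt (core_single hu.1 c2 ⟨htS, ht2⟩)
    · exact ⟨u, core_sub h₁ inter_subset_right hu.1, core_sub h₂ inter_subset_right hu.2,
        core_single hu.1 c1 ⟨hsS, hs1⟩, core_single hu.1 c1 ⟨htS, ht1⟩,
        core_single hu.1 c1 ⟨hwS, hw.1⟩, core_single hu.2 c2 ⟨hsS, hs2⟩,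
        core_single hu.2 c2 ⟨htS, ht2⟩⟩
  -- the sets `N₁`, `N₂` are nonempty
  have hN₁ : ∃ s, s ∈ X₁ ∧ s ∈ X₂ ∧ w ∉ hull C₁ {s} := by
    by_contra hcon
    push Not at hcon
    have : w ∈ core C₁ σ P₁ := by
      refine core_of_all (by rw [hc₁]; exact hσ2) (fun f hf => ?_)
      by_cases hf2 : f ∈ X₂
      · exact hcon f (hP₁ hf) hf2
      · rw [uw f (hP₁ hf) hf2]
        exact subset_hull _ rfl
    rw [he₁] at this
    exact this
  have hN₂ : ∃ t, t ∈ X₁ ∧ t ∈ X₂ ∧ z ∉ hull C₂ {t} := by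
    by_contra hcon
    push Not at hcon
    have : z ∈ core C₂ σ P₂ := by
      refine core_of_all (by rw [hc₂]; exact hσ2) (fun f hf => ?_)
      by_cases hf1 : f ∈ X₁
      · exact hcon f hf1 (hP₂ hf)
      · rw [uz f (hP₂ hf) hf1]
        exact subset_hull _ rfl
    rw [he₂] at this
    exact this
  obtain ⟨s₀, hs1, hs2, hs3⟩ := hN₁
  obtain ⟨t₀, ht1, ht2, ht3⟩ := hN₂
  -- membership in `N`
  have key2 : ∀ s t : U, s ∈ X₁ → s ∈ X₂ → t ∈ X₁ → t ∈ X₂ → w ∉ hull C₁ {s} → z ∉ hull C₂ {t} →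
      ∃ u : U, (u ∈ X₁ ∧ u ∈ X₂ ∧ w ∉ hull C₁ {u} ∧ z ∉ hull C₂ {u}) ∧ u ∈ hull C₁ {s} ∧
        u ∈ hull C₁ {t} ∧ u ∈ hull C₁ {w} := by
    intro s t a1 a2 a3 a4 a5 a6
    obtain ⟨u, b1, b2, b3, b4, b5, b6, b7⟩ := key s t a1 a2 a3 a4 a5 a6
    exact ⟨u, ⟨b1, b2, fun h => a5 (hull_trans h₁ (singleton_subset_iff.2 a1) h b3),
      fun h => a6 (hull_trans h₂ (singleton_subset_iff.2 a4) h b7)⟩, b3, b4, b5⟩
  have hfin : P₁.Finite := by
    refine finite_of_encard_eq_coe (k := σ + 2) ?_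
    rw [hc₁]
    norm_cast
  have main : ∀ F : Set U, F.Finite → F ⊆ X₁ →
      ∃ u : U, (u ∈ X₁ ∧ u ∈ X₂ ∧ w ∉ hull C₁ {u} ∧ z ∉ hull C₂ {u}) ∧
        ∀ f ∈ F, u ∈ hull C₁ {f} := by
    intro F hF
    induction F, hF using Set.Finite.induction_on with
    | empty =>
      intro _
      obtain ⟨u, hu, -⟩ := key2 s₀ t₀ hs1 hs2 ht1 ht2 hs3 ht3
      exact ⟨u, hu, fun f hf => absurd hf (notMem_empty f)⟩
    | @insert a F ha hF ih =>
      intro hsub
      obtain ⟨u, hu, hall⟩ := ih ((subset_insert _ _).trans hsub)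
      have haX : a ∈ X₁ := hsub (mem_insert _ _)
      have hstep : ∃ v : U, (v ∈ X₁ ∧ v ∈ X₂ ∧ w ∉ hull C₁ {v} ∧ z ∉ hull C₂ {v}) ∧
          v ∈ hull C₁ {a} ∧ v ∈ hull C₁ {u} := by
        by_cases ha2 : a ∈ X₂ ∧ w ∉ hull C₁ {a}
        · obtain ⟨v, hv, c1, c2, -⟩ := key2 a u haX ha2.1 hu.1 hu.2.1 ha2.2 hu.2.2.2
          exact ⟨v, hv, c1, c2⟩
        · obtain ⟨v, hv, c1, c2, c3⟩ := key2 u u hu.1 hu.2.1 hu.1 hu.2.1 hu.2.2.1 hu.2.2.2
          refine ⟨v, hv, ?_, c1⟩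
          by_cases ha3 : a ∈ X₂
          · have : w ∈ hull C₁ {a} := by
              by_contra hcon
              exact ha2 ⟨ha3, hcon⟩
            exact hull_trans h₁ (singleton_subset_iff.2 haX) c3 this
          · rw [uw a haX ha3]
            exact c3
      obtain ⟨v, hv, hv1, hv2⟩ := hstep
      refine ⟨v, hv, ?_⟩
      rintro f (rfl | hf)
      · exact hv1
      · exact hull_trans h₁ (singleton_subset_iff.2 (hsub (Or.inr hf))) hv2 (hall f hf)
  obtain ⟨u, -, hall⟩ := main P₁ hfin hP₁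
  have : u ∈ core C₁ σ P₁ := core_of_all (by rw [hc₁]; exact hσ2) hall
  rw [he₁] at this
  exact this

/-- The bound `σ + 2`. -/
theorem bound_two (h₁ : IsAligned X₁ C₁) (h₂ : IsAligned X₂ C₂) {σ : ℕ} (hσ : 2 ≤ σ)
    {P₁ P₂ : Set U} (hP₁ : P₁ ⊆ X₁) (hP₂ : P₂ ⊆ X₂) (hc₁ : P₁.encard = (σ : ℕ∞) + 2)
    (hc₂ : P₂.encard = (σ : ℕ∞) + 2) (he₁ : core C₁ σ P₁ = ∅) (he₂ : core C₂ σ P₂ = ∅) :
    (σ : ℕ∞) + 2 ≤ helly (X₁ ∪ X₂) (sumConv X₁ C₁ X₂ C₂) σ := by
  by_contra hcon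
  have H : ∀ S : Set U, S ⊆ X₁ ∪ X₂ → (σ : ℕ∞) + 2 ≤ S.encard →
      (core (sumConv X₁ C₁ X₂ C₂) σ S).Nonempty := by
    intro S hS hc
    by_contra hn
    rw [not_nonempty_iff_eq_empty] at hn
    exact hcon (hc.trans (le_helly hS hn))
  have H' : ∀ S : Set U, S ⊆ X₂ ∪ X₁ → (σ : ℕ∞) + 2 ≤ S.encard →
      (core (sumConv X₂ C₂ X₁ C₁) σ S).Nonempty := by
    intro S hS hc
    rw [sumConv_comm]
    rw [union_comm] at hS
    exact H S hS hc
  obtain ⟨z, hz⟩ := H P₁ (hP₁.trans subset_union_left) hc₁.ge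
  obtain ⟨w, hw⟩ := H' P₂ (hP₂.trans subset_union_left) hc₂.ge
  have hz' := outside h₁ h₂ hP₁ he₁ hz
  have hw' := outside h₂ h₁ hP₂ he₂ hw
  by_cases uz : ∀ x, x ∈ X₂ → x ∉ X₁ → x = z
  · by_cases uw : ∀ x, x ∈ X₁ → x ∉ X₂ → x = w
    · exact case_one h₁ h₂ hσ H hw' hz' uw uz hP₁ hc₁ he₁ hP₂ hc₂ he₂
    · push Not at uw
      obtain ⟨x, hx1, hx2, hx3⟩ := uw
      exact case_two h₂ h₁ hσ H' hz' ⟨hx1, hx2⟩ hw' hx3 hP₁ hc₁ he₁
  · push Not at uz
    obtain ⟨x, hx1, hx2, hx3⟩ := uz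
    exact case_two h₁ h₂ hσ H hw' ⟨hx1, hx2⟩ hz' hx3 hP₂ hc₂ he₂

/-- The lower bound when both numbers are at least `σ`. -/
theorem lower_big (h₁ : IsAligned X₁ C₁) (h₂ : IsAligned X₂ C₂) {σ : ℕ} (hσ : 1 ≤ σ)
    (a₁ : σ ≤ helly X₁ C₁ σ) (a₂ : σ ≤ helly X₂ C₂ σ) :
    min (min (helly X₁ C₁ σ) (helly X₂ C₂ σ)) ((σ + min σ 2 : ℕ) : ℕ∞) ≤
      helly (X₁ ∪ X₂) (sumConv X₁ C₁ X₂ C₂) σ := by
  obtain ⟨k, hk⟩ := ENat.ne_top_iff_exists.1
    (ne_top_of_le_ne_top (ENat.natCast_ne_top (σ + min σ 2)) (min_le_right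
      (min (helly X₁ C₁ σ) (helly X₂ C₂ σ)) ((σ + min σ 2 : ℕ) : ℕ∞)))
  have k1 : (k : ℕ∞) ≤ helly X₁ C₁ σ := by
    rw [hk]
    exact (min_le_left _ _).trans (min_le_left _ _)
  have k2 : (k : ℕ∞) ≤ helly X₂ C₂ σ := by
    rw [hk]
    exact (min_le_left _ _).trans (min_le_right _ _)
  have k3 : k ≤ σ + min σ 2 := by
    have : (k : ℕ∞) ≤ ((σ + min σ 2 : ℕ) : ℕ∞) := by
      rw [hk]
      exact min_le_right _ _
    exact_mod_cast this
  have k4 : σ ≤ k := by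
    have : (σ : ℕ∞) ≤ (k : ℕ∞) := by
      rw [hk]
      refine le_min (le_min a₁ a₂) ?_
      exact_mod_cast Nat.le_add_right _ _
    exact_mod_cast this
  rw [← hk]
  have get : ∀ {X : Set U} {C : Set (Set U)} (j : ℕ), ((j + 1 : ℕ) : ℕ∞) ≤ helly X C σ →
      ∃ P : Set U, P ⊆ X ∧ P.encard = ((j + 1 : ℕ) : ℕ∞) ∧ core C σ P = ∅ := by
    intro X C j hj
    have hlt : (j : ℕ∞) < helly X C σ := by
      refine lt_of_lt_of_le ?_ hj
      exact_mod_cast Nat.lt_succ_self j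
    obtain ⟨S, hS, hc, he⟩ := exists_of_lt hlt
    obtain ⟨P, hP, hq⟩ := Set.exists_subset_encard_eq hc
    exact ⟨P, hP.trans hS, by rw [hq]; norm_cast, subset_eq_empty (core_mono hP) he⟩
  by_cases c0 : k = σ
  · rw [c0]
    have h3 : (σ : ℕ∞) ≤ (X₁ ∪ X₂).encard :=
      a₁.trans (helly_le_encard.trans (encard_le_encard subset_union_left))
    obtain ⟨T, hT, hTc⟩ := Set.exists_subset_encard_eq h3
    rw [← hTc]
    refine le_helly hT (core_sum_small h₁ h₂ hT ?_ ?_)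
    · exact (encard_le_encard inter_subset_left).trans hTc.le
    · exact (encard_le_encard inter_subset_left).trans hTc.le
  by_cases c1 : k = σ + 1
  · rw [c1] at k1 k2 ⊢
    obtain ⟨P₁, hP₁, hc₁, he₁⟩ := get σ k1
    obtain ⟨P₂, hP₂, hc₂, he₂⟩ := get σ k2
    push_cast at hc₁ hc₂ ⊢
    exact bound_one h₁ h₂ hσ hP₁ hP₂ hc₁.ge hc₂.ge he₁ he₂
  · have hk2 : k = σ + 2 := by omega
    have hσ2 : 2 ≤ σ := by omega
    rw [hk2] at k1 k2 ⊢
    obtain ⟨P₁, hP₁, hc₁, he₁⟩ := get (σ + 1) k1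
    obtain ⟨P₂, hP₂, hc₂, he₂⟩ := get (σ + 1) k2
    have e2 : ((σ + 1 + 1 : ℕ) : ℕ∞) = (σ : ℕ∞) + 2 := by
      push_cast
      rw [add_assoc]
      norm_num
    rw [e2] at hc₁ hc₂
    push_cast
    exact bound_two h₁ h₂ hσ2 hP₁ hP₂ hc₁ hc₂ he₁ he₂

/-- Removing finitely many small sets. -/
theorem rem_bound {ι : Type} (P : Set U) (M : ι → Set U) (σ : ℕ) (W : Set ι) (hW : W.Finite)
    (h : ∀ i ∈ W, (M i).encard ≤ σ) :
    P.encard ≤ (P \ ⋃ i ∈ W, M i).encard + W.encard * σ := by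
  induction W, hW using Set.Finite.induction_on with
  | empty => simp
  | @insert a W ha hW ih =>
    have h1 := ih (fun i hi => h i (Or.inr hi))
    have h2 : (P \ ⋃ i ∈ W, M i).encard ≤ (P \ ⋃ i ∈ insert a W, M i).encard + σ := by
      have h3 : P \ ⋃ i ∈ W, M i ⊆ (P \ ⋃ i ∈ insert a W, M i) ∪ M a := by
        rintro x ⟨hx, hx2⟩
        by_cases hxa : x ∈ M a
        · exact Or.inr hxa
        · refine Or.inl ⟨hx, ?_⟩
          intro hx3
          simp only [mem_iUnion, exists_prop] at hx2 hx3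
          obtain ⟨i, hi, hxi⟩ := hx3
          rcases hi with rfl | hi
          · exact hxa hxi
          · exact hx2 ⟨i, hi, hxi⟩
      exact (encard_le_encard h3).trans ((encard_union_le _ _).trans
        (add_le_add le_rfl (h a (Or.inl rfl))))
    rw [encard_insert_of_notMem ha, add_mul, one_mul]
    calc P.encard ≤ (P \ ⋃ i ∈ W, M i).encard + W.encard * σ := h1
      _ ≤ ((P \ ⋃ i ∈ insert a W, M i).encard + σ) + W.encard * σ := add_le_add h2 le_rfl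
      _ = (P \ ⋃ i ∈ insert a W, M i).encard + (W.encard * σ + σ) := by
        rw [add_assoc, add_comm (σ : ℕ∞)]

/-- The size of a finite union of small sets. -/
theorem union_bound {ι : Type} (M : ι → Set U) (m : ℕ) (W : Set ι) (hW : W.Finite)
    (h : ∀ i ∈ W, (M i).encard ≤ m) : (⋃ i ∈ W, M i).encard ≤ W.encard * m := by
  induction W, hW using Set.Finite.induction_on with
  | empty => simp
  | @insert a W ha hW ih =>
    have h1 := ih (fun i hi => h i (Or.inr hi))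
    rw [encard_insert_of_notMem ha, add_mul, one_mul, biUnion_insert]
    refine (encard_union_le _ _).trans ?_
    rw [add_comm]
    exact add_le_add h1 (h a (Or.inl rfl))

/-- A Helly-type statement for the hulls of the large subsets of `P`. -/
theorem family {C : Set (Set U)} {X : Set U} (hC : IsAligned X C) {σ m : ℕ}
    {N P : Set U} (hPX : P ⊆ X)
    (Q1 : ∀ F : Set U, F ⊆ N → ((m + 1 : ℕ) : ℕ∞) ≤ F.encard →
      ∃ u ∈ N, ∀ y ∈ F, u ∈ hull C (F \ {y}))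
    (Qs : ∀ 𝓜 : Finset (Set U), 𝓜.card ≤ m → (∀ M ∈ 𝓜, M ⊆ P ∧ M.encard ≤ σ) →
      ∃ u ∈ N, ∀ M ∈ 𝓜, u ∈ hull C (P \ M)) (n : ℕ) :
    ∀ 𝓜 : Finset (Set U), 𝓜.card = n → (∀ M ∈ 𝓜, M ⊆ P ∧ M.encard ≤ σ) →
      ∃ u ∈ N, ∀ M ∈ 𝓜, u ∈ hull C (P \ M) := by
  classical
  induction n using Nat.strong_induction_on with
  | _ n ih =>
    intro 𝓜 hcard hM
    by_cases hn : n < m + 1
    · exact Qs 𝓜 (by omega) hM
    · have hx : ∀ M : Set U, ∃ u : U, M ∈ 𝓜 → (u ∈ N ∧ ∀ M' ∈ 𝓜.erase M, u ∈ hull C (P \ M')) := by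
        intro M
        by_cases hMM : M ∈ 𝓜
        · obtain ⟨u, hu, hu2⟩ := ih (𝓜.erase M).card (by
            rw [Finset.card_erase_of_mem hMM, hcard]
            omega) (𝓜.erase M) rfl (fun M' hM' => hM M' (Finset.mem_of_mem_erase hM'))
          exact ⟨u, fun _ => ⟨hu, hu2⟩⟩
        · obtain ⟨u, -, -⟩ := Qs ∅ (by simp) (by simp)
          exact ⟨u, fun h => absurd h hMM⟩
      choose x hx using hx
      by_cases hinj : Set.InjOn x (𝓜 : Set (Set U))
      · have hc : ((m + 1 : ℕ) : ℕ∞) ≤ (x '' (𝓜 : Set (Set U))).encard := by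
          rw [hinj.encard_image, encard_coe_eq_coe_finsetCard, hcard]
          have : m + 1 ≤ n := by omega
          exact_mod_cast this
        obtain ⟨u, hu, hucore⟩ := Q1 (x '' (𝓜 : Set (Set U))) (by
          rintro y ⟨M, hMM, rfl⟩
          exact (hx M hMM).1) hc
        refine ⟨u, hu, fun M hMM => ?_⟩
        have h1 := hucore (x M) ⟨M, hMM, rfl⟩
        refine h1 _ ⟨hull_mem hC (sdiff_subset.trans hPX), ?_⟩
        rintro y ⟨⟨M', hM', rfl⟩, hy⟩
        refine (hx M' hM').2 M (Finset.mem_erase.2 ⟨?_, hMM⟩)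
        rintro rfl
        exact hy rfl
      · simp only [Set.InjOn] at hinj
        push Not at hinj
        obtain ⟨M₁, hM₁, M₂, hM₂, he, hne⟩ := hinj
        refine ⟨x M₁, (hx M₁ hM₁).1, fun M hMM => ?_⟩
        by_cases h1 : M = M₁
        · rw [h1, he]
          exact (hx M₂ hM₂).2 M₁ (Finset.mem_erase.2 ⟨hne, hM₁⟩)
        · exact (hx M₁ hM₁).2 M (Finset.mem_erase.2 ⟨h1, hMM⟩)

/-- Small families, when `P` is large. -/
theorem small_family {C : Set (Set U)} {σ m : ℕ}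
    {N P : Set U} (hP : ((m * σ + m : ℕ) : ℕ∞) ≤ P.encard)
    (Q2 : ∀ T : Set U, T ⊆ P → T.encard = m → ∃ u ∈ N, u ∈ hull C T) :
    ∀ 𝓜 : Finset (Set U), 𝓜.card ≤ m → (∀ M ∈ 𝓜, M ⊆ P ∧ M.encard ≤ σ) →
      ∃ u ∈ N, ∀ M ∈ 𝓜, u ∈ hull C (P \ M) := by
  intro 𝓜 hcard hM
  have h1 := rem_bound P (fun M : Set U => M) σ (𝓜 : Set (Set U)) 𝓜.finite_toSet
    (fun M hM' => (hM M hM').2)
  rw [encard_coe_eq_coe_finsetCard] at h1
  have h2 : (m : ℕ∞) ≤ (P \ ⋃ M ∈ (𝓜 : Set (Set U)), M).encard := by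
    by_contra hcon
    rw [not_le] at hcon
    obtain ⟨t, ht⟩ := ENat.ne_top_iff_exists.1 (ne_top_of_lt hcon)
    rw [← ht] at h1 hcon
    have h3 := hP.trans h1
    have h4 : m * σ + m ≤ t + 𝓜.card * σ := by exact_mod_cast h3
    have h5 : t < m := by exact_mod_cast hcon
    have h6 : 𝓜.card * σ ≤ m * σ := Nat.mul_le_mul_right _ hcard
    omega
  obtain ⟨T, hT, hTc⟩ := Set.exists_subset_encard_eq h2
  obtain ⟨u, hu, huT⟩ := Q2 T (hT.trans sdiff_subset) hTc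
  refine ⟨u, hu, fun M hM' => hull_mono ?_ huT⟩
  intro x hx
  refine ⟨(hT hx).1, fun hxM => (hT hx).2 ?_⟩
  simp only [mem_iUnion, exists_prop]
  exact ⟨M, hM', hxM⟩

/-- The case in which the first space has fewer than `m` private points. -/
theorem few_private (h₁ : IsAligned X₁ C₁) (h₂ : IsAligned X₂ C₂) {σ m : ℕ} (hm : 1 ≤ m)
    (hmσ : m ≤ σ)
    (H : ∀ S : Set U, S ⊆ X₁ ∪ X₂ → ((σ + m : ℕ) : ℕ∞) ≤ S.encard →
      (core (sumConv X₁ C₁ X₂ C₂) σ S).Nonempty)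
    (hW : (X₁ \ X₂).encard < m) {P₁ P₂ : Set U} (hP₁ : P₁ ⊆ X₁)
    (hc₁ : ((m * σ + m : ℕ) : ℕ∞) ≤ P₁.encard) (he₁ : core C₁ σ P₁ = ∅) (hP₂ : P₂ ⊆ X₂)
    (hfin : P₂.Finite) (hc₂ : ((m * σ + m : ℕ) : ℕ∞) ≤ P₂.encard) (he₂ : core C₂ σ P₂ = ∅) :
    False := by
  classical
  have hWfin : (X₁ \ X₂).Finite := encard_ne_top_iff.1 (ne_top_of_lt hW)
  have hM : ∀ w : U, ∃ M : Set U, M.encard ≤ σ ∧ w ∉ hull C₁ (P₁ \ M) := by
    intro w
    by_contra hcon
    push Not at hcon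
    have : w ∈ core C₁ σ P₁ := fun M _ hc => hcon M hc
    rw [he₁] at this
    exact this
  choose M hMc hMw using hM
  set Q : Set U := P₁ \ ⋃ w ∈ (X₁ \ X₂), M w with hQ
  have hQW : ∀ w ∈ X₁ \ X₂, w ∉ hull C₁ Q := by
    intro w hw hcon
    refine hMw w (hull_mono ?_ hcon)
    rintro x ⟨hx, hx2⟩
    refine ⟨hx, fun hxM => hx2 ?_⟩
    simp only [mem_iUnion, exists_prop]
    exact ⟨w, hw, hxM⟩
  have hQX : Q ⊆ X₁ := sdiff_subset.trans hP₁
  have hhX : hull C₁ Q ⊆ X₂ := by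
    intro x hx
    by_contra hx2
    exact hQW x ⟨hull_sub h₁ hQX hx, hx2⟩ hx
  have hQc : ((σ + m : ℕ) : ℕ∞) ≤ Q.encard := by
    have h1 := rem_bound P₁ M σ (X₁ \ X₂) hWfin (fun w _ => hMc w)
    rw [← hQ] at h1
    by_contra hcon
    rw [not_le] at hcon
    obtain ⟨t, ht⟩ := ENat.ne_top_iff_exists.1 (ne_top_of_lt hcon)
    obtain ⟨v, hv⟩ := ENat.ne_top_iff_exists.1 (ne_top_of_lt hW)
    rw [← ht] at h1 hcon
    rw [← hv] at h1 hW
    have h3 := hc₁.trans h1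
    have h4 : m * σ + m ≤ t + v * σ := by exact_mod_cast h3
    have h5 : t < σ + m := by exact_mod_cast hcon
    have h6 : v < m := by exact_mod_cast hW
    have h7 : v * σ ≤ (m - 1) * σ := Nat.mul_le_mul_right _ (by omega)
    have h8 : (m - 1) * σ + σ = m * σ := by
      obtain ⟨s, rfl⟩ : ∃ s, m = s + 1 := ⟨m - 1, by omega⟩
      have : s + 1 - 1 = s := by omega
      rw [this]
      ring
    omega
  set N : Set U := {u | u ∈ X₂ ∧ (u ∉ X₁ ∨ u ∈ hull C₁ Q)} with hN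
  have hcl : ∀ S : Set U, (S \ hull C₁ Q).encard ≤ σ → ∀ u ∈ core C₁ σ (S ∩ X₁),
      u ∈ hull C₁ Q := by
    intro S hS u hu
    have h1 := hu ((S ∩ X₁) \ hull C₁ Q) sdiff_subset
      ((encard_le_encard (sdiff_subset_sdiff_left inter_subset_left)).trans hS)
    refine h1 _ ⟨hull_mem h₁ hQX, ?_⟩
    rintro x ⟨hx, hx2⟩
    by_contra hx3
    exact hx2 ⟨hx, hx3⟩
  have Q0 : ∀ S : Set U, S ⊆ X₁ ∪ X₂ → ((σ + m : ℕ) : ℕ∞) ≤ S.encard →
      (S \ hull C₁ Q).encard ≤ σ → ∃ u ∈ N, u ∈ core C₂ σ (S ∩ X₂) := by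
    intro S hS hc hs
    obtain ⟨u, hu⟩ := H S hS hc
    rw [mem_core_sum h₁ h₂ hS] at hu
    rcases hu with hu | hu | hu
    · exact absurd (hhX (hcl S hs u hu.1)) hu.2
    · exact ⟨u, ⟨core_sub h₂ inter_subset_right hu.1, Or.inl hu.2⟩, hu.1⟩
    · exact ⟨u, ⟨core_sub h₂ inter_subset_right hu.2, Or.inr (hcl S hs u hu.1)⟩, hu.2⟩
  have hNX : N ⊆ X₂ := fun u hu => hu.1
  have Q1 : ∀ F : Set U, F ⊆ N → ((σ + m : ℕ) : ℕ∞) ≤ F.encard → ∃ u ∈ N, u ∈ core C₂ σ F := by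
    intro F hF hc
    obtain ⟨F', hF', hc'⟩ := Set.exists_subset_encard_eq hc
    have hFX : F' ⊆ X₂ := hF'.trans (hF.trans hNX)
    suffices h : ∃ u ∈ N, u ∈ core C₂ σ F' by
      obtain ⟨u, hu, hu2⟩ := h
      exact ⟨u, hu, core_mono hF' hu2⟩
    by_cases hs : (F' \ hull C₁ Q).encard ≤ σ
    · obtain ⟨u, hu, hu2⟩ := Q0 F' (hFX.trans subset_union_right) hc'.ge hs
      rw [inter_eq_left.2 hFX] at hu2
      exact ⟨u, hu, hu2⟩
    · have hin : (F' ∩ X₁).encard ≤ σ := by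
        have h1 : F' ∩ X₁ ⊆ F' ∩ hull C₁ Q := by
          rintro x ⟨hx, hx1⟩
          exact ⟨hx, ((hF (hF' hx)).2).resolve_left (fun h => h hx1)⟩
        refine (encard_le_encard h1).trans ?_
        by_contra hcon
        rw [not_le] at hcon hs
        have h2 := encard_sdiff_add_encard_inter F' (hull C₁ Q)
        rw [hc'] at h2
        have h3 := add_le_add (Order.add_one_le_of_lt hs) (Order.add_one_le_of_lt hcon)
        rw [h2] at h3
        have h4 : (σ + 1) + (σ + 1) ≤ σ + m := by exact_mod_cast h3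
        omega
      obtain ⟨u, hu⟩ := H F' (hFX.trans subset_union_right) hc'.ge
      rw [mem_core_sum h₁ h₂ (hFX.trans subset_union_right), core_small h₁ hin,
        inter_eq_left.2 hFX] at hu
      simp only [mem_empty_iff_false, false_and, false_or, or_false] at hu
      exact ⟨u, ⟨core_sub h₂ hFX hu.1, Or.inl hu.2⟩, hu.1⟩
  have hQN : Q ⊆ N := fun x hx => ⟨hhX (subset_hull _ hx), Or.inr (subset_hull _ hx)⟩
  have Q1' : ∀ F : Set U, F ⊆ N → ((m + 1 : ℕ) : ℕ∞) ≤ F.encard →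
      ∃ u ∈ N, ∀ y ∈ F, u ∈ hull C₂ (F \ {y}) := by
    intro F hF hc
    by_cases hbig : ((σ + m : ℕ) : ℕ∞) ≤ F.encard
    · obtain ⟨u, hu, hu2⟩ := Q1 F hF hbig
      refine ⟨u, hu, fun y hy => hu2 {y} (singleton_subset_iff.2 hy) ?_⟩
      rw [encard_singleton]
      exact_mod_cast hm.trans hmσ
    · rw [not_le] at hbig
      obtain ⟨S, hS1, hS2, hS3⟩ := exists_superset_subset_encard_eq hF hbig.le
        (hQc.trans (encard_le_encard hQN))
      obtain ⟨u, hu, hu2⟩ := Q1 S hS2 hS3.ge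
      refine ⟨u, hu, fun y hy => ?_⟩
      have hM : ((S \ F) ∪ {y}).encard ≤ σ := by
        refine (encard_union_le _ _).trans ?_
        rw [encard_singleton]
        have h1 := encard_sdiff_add_encard_of_subset hS1
        rw [hS3] at h1
        obtain ⟨f, hf⟩ := ENat.ne_top_iff_exists.1 (ne_top_of_lt hbig)
        obtain ⟨g, hg⟩ := ENat.ne_top_iff_exists.1 (ne_top_of_le_ne_top
          (ENat.natCast_ne_top (σ + m)) (h1 ▸ le_self_add : (S \ F).encard ≤ ((σ + m : ℕ) : ℕ∞)))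
        rw [← hf] at h1 hc
        rw [← hg] at h1 ⊢
        have h2 : g + f = σ + m := by exact_mod_cast h1
        have h3 : m + 1 ≤ f := by exact_mod_cast hc
        have h4 : g + 1 ≤ σ := by omega
        exact_mod_cast h4
      have h5 := hu2 ((S \ F) ∪ {y}) (union_subset sdiff_subset
        (singleton_subset_iff.2 (hS1 hy))) hM
      refine hull_mono ?_ h5
      rintro x ⟨hx, hx2⟩
      refine ⟨?_, fun hxy => hx2 (Or.inr hxy)⟩
      by_contra hxF
      exact hx2 (Or.inl ⟨hx, hxF⟩)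
  have Q2 : ∀ T : Set U, T ⊆ P₂ → T.encard = m → ∃ u ∈ N, u ∈ hull C₂ T := by
    intro T hT hTc
    have h1 : (σ : ℕ∞) ≤ (Q \ T).encard := by
      have h2 : Q.encard ≤ (Q \ T).encard + T.encard := by
        rw [← encard_sdiff_add_encard_inter Q T]
        exact add_le_add le_rfl (encard_le_encard inter_subset_right)
      rw [hTc] at h2
      have h3 := hQc.trans h2
      have h4 : ((σ + m : ℕ) : ℕ∞) = (σ : ℕ∞) + m := by
        push_cast
        rfl
      rw [h4] at h3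
      exact (ENat.add_le_add_iff_right (ENat.natCast_ne_top m)).1 h3
    obtain ⟨T₁, hT₁, hTc₁⟩ := Set.exists_subset_encard_eq h1
    have hdis : Disjoint T₁ T := by
      rw [Set.disjoint_left]
      intro x hx hx'
      exact (hT₁ hx).2 hx'
    have hTQ : T₁ ⊆ Q := hT₁.trans sdiff_subset
    have hTX : T₁ ⊆ X₂ := fun x hx => hhX (subset_hull _ (hTQ hx))
    have hSX : T₁ ∪ T ⊆ X₂ := union_subset hTX (hT.trans hP₂)
    obtain ⟨u, hu, hu2⟩ := Q0 (T₁ ∪ T) (hSX.trans subset_union_right) (by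
      rw [encard_union_eq hdis, hTc, hTc₁]
      push_cast
      rfl) (by
      refine le_trans ?_ (hTc.le.trans (by exact_mod_cast hmσ))
      refine encard_le_encard ?_
      rintro x ⟨hx | hx, hx2⟩
      · exact absurd (subset_hull _ (hTQ hx)) hx2
      · exact hx)
    rw [inter_eq_left.2 hSX] at hu2
    refine ⟨u, hu, hull_mono ?_ (hu2 T₁ subset_union_left hTc₁.le)⟩
    rintro x ⟨hx | hx, hx2⟩
    · exact absurd hx hx2
    · exact hx
  have hfinS : {M : Set U | M ⊆ P₂ ∧ M.encard ≤ σ}.Finite :=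
    hfin.finite_subsets.subset (fun M hM => hM.1)
  obtain ⟨u, -, hu⟩ := family h₂ hP₂ Q1' (small_family hc₂ Q2) _ hfinS.toFinset rfl (fun M hM => by
    rw [Set.Finite.mem_toFinset] at hM
    exact hM)
  have : u ∈ core C₂ σ P₂ := by
    intro M hM hc
    exact hu M (by
      rw [Set.Finite.mem_toFinset]
      exact ⟨hM, hc⟩)
  rw [he₂] at this
  exact this

/-- Many private points on both sides. -/
theorem many_private (h₁ : IsAligned X₁ C₁) (h₂ : IsAligned X₂ C₂) {σ m : ℕ} (hmσ : m ≤ σ)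
    (hW : (m : ℕ∞) ≤ (X₁ \ X₂).encard) (hZ : (m : ℕ∞) ≤ (X₂ \ X₁).encard)
    (hXc : ((σ + m : ℕ) : ℕ∞) ≤ (X₁ ∪ X₂).encard) :
    ∃ S : Set U, S ⊆ X₁ ∪ X₂ ∧ S.encard = ((σ + m : ℕ) : ℕ∞) ∧
      core (sumConv X₁ C₁ X₂ C₂) σ S = ∅ := by
  obtain ⟨A, hA, hAc⟩ := Set.exists_subset_encard_eq hW
  obtain ⟨B, hB, hBc⟩ := Set.exists_subset_encard_eq hZ
  have hdis : Disjoint A B := by
    rw [Set.disjoint_left]
    intro x hx hx'
    exact (hB hx').2 (hA hx).1
  have hAB : A ∪ B ⊆ X₁ ∪ X₂ := by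
    rintro x (hx | hx)
    · exact Or.inl (hA hx).1
    · exact Or.inr (hB hx).1
  have hABc : (A ∪ B).encard = ((m + m : ℕ) : ℕ∞) := by
    rw [encard_union_eq hdis, hAc, hBc]
    push_cast
    rfl
  obtain ⟨S, hS1, hS2, hS3⟩ := exists_superset_subset_encard_eq hAB
    (k := ((σ + m : ℕ) : ℕ∞)) (by
      rw [hABc]
      have : m + m ≤ σ + m := by omega
      exact_mod_cast this) hXc
  have hcut : ∀ D : Set U, D ⊆ S → D.encard = m → (S \ D).encard ≤ σ := by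
    intro D hD hDc
    have h1 := encard_sdiff_add_encard_of_subset hD
    rw [hS3, hDc] at h1
    have h4 : ((σ + m : ℕ) : ℕ∞) = (σ : ℕ∞) + m := by
      push_cast
      rfl
    rw [h4] at h1
    exact (ENat.add_le_add_iff_right (ENat.natCast_ne_top m)).1 h1.le
  refine ⟨S, hS2, hS3, core_sum_small h₁ h₂ hS2 ?_ ?_⟩
  · refine (encard_le_encard ?_).trans (hcut B (subset_union_right.trans hS1) hBc)
    rintro x ⟨hx, hx1⟩
    exact ⟨hx, fun hx2 => (hB hx2).2 hx1⟩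
  · refine (encard_le_encard ?_).trans (hcut A (subset_union_left.trans hS1) hAc)
    rintro x ⟨hx, hx1⟩
    exact ⟨hx, fun hx2 => (hA hx2).2 hx1⟩

/-- The bound `σ + m` when both numbers are at least `m(σ + 1)`. -/
theorem lower_large (h₁ : IsAligned X₁ C₁) (h₂ : IsAligned X₂ C₂) {σ m : ℕ} (hm : 1 ≤ m)
    (hmσ : m ≤ σ) (a₁ : ((m * σ + m : ℕ) : ℕ∞) ≤ helly X₁ C₁ σ)
    (a₂ : ((m * σ + m : ℕ) : ℕ∞) ≤ helly X₂ C₂ σ) :
    ((σ + m : ℕ) : ℕ∞) ≤ helly (X₁ ∪ X₂) (sumConv X₁ C₁ X₂ C₂) σ := by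
  by_contra hcon
  have H : ∀ S : Set U, S ⊆ X₁ ∪ X₂ → ((σ + m : ℕ) : ℕ∞) ≤ S.encard →
      (core (sumConv X₁ C₁ X₂ C₂) σ S).Nonempty := by
    intro S hS hc
    by_contra hn
    rw [not_nonempty_iff_eq_empty] at hn
    exact hcon (hc.trans (le_helly hS hn))
  have H' : ∀ S : Set U, S ⊆ X₂ ∪ X₁ → ((σ + m : ℕ) : ℕ∞) ≤ S.encard →
      (core (sumConv X₂ C₂ X₁ C₁) σ S).Nonempty := by
    intro S hS hc
    rw [sumConv_comm]
    rw [union_comm] at hS
    exact H S hS hc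
  have get : ∀ {X : Set U} {C : Set (Set U)}, ((m * σ + m : ℕ) : ℕ∞) ≤ helly X C σ →
      ∃ P : Set U, P ⊆ X ∧ P.encard = ((m * σ + m : ℕ) : ℕ∞) ∧ core C σ P = ∅ := by
    intro X C hj
    obtain ⟨j, hj2⟩ : ∃ j, m * σ + m = j + 1 := ⟨m * σ + m - 1, by omega⟩
    rw [hj2] at hj ⊢
    have hlt : (j : ℕ∞) < helly X C σ := by
      refine lt_of_lt_of_le ?_ hj
      exact_mod_cast Nat.lt_succ_self j
    obtain ⟨S, hS, hc, he⟩ := exists_of_lt hlt
    obtain ⟨P, hP, hq⟩ := Set.exists_subset_encard_eq hc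
    exact ⟨P, hP.trans hS, by rw [hq]; norm_cast, subset_eq_empty (core_mono hP) he⟩
  obtain ⟨P₁, hP₁, hc₁, he₁⟩ := get a₁
  obtain ⟨P₂, hP₂, hc₂, he₂⟩ := get a₂
  by_cases hW : (X₁ \ X₂).encard < m
  · exact few_private h₁ h₂ hm hmσ H hW hP₁ hc₁.ge he₁ hP₂
      (finite_of_encard_eq_coe hc₂) hc₂.ge he₂
  by_cases hZ : (X₂ \ X₁).encard < m
  · exact few_private h₂ h₁ hm hmσ H' hZ hP₂ hc₂.ge he₂ hP₁
      (finite_of_encard_eq_coe hc₁) hc₁.ge he₁
  rw [not_lt] at hW hZ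
  have hXc : ((σ + m : ℕ) : ℕ∞) ≤ (X₁ ∪ X₂).encard := by
    refine le_trans ?_ (encard_le_encard (hP₁.trans subset_union_left))
    rw [hc₁]
    have : σ + m ≤ m * σ + m := by nlinarith
    exact_mod_cast this
  obtain ⟨S, hS2, hS3, hemp⟩ := many_private h₁ h₂ hmσ hW hZ hXc
  exact absurd hemp (nonempty_iff_ne_empty.1 (H S hS2 hS3.ge))

/-- Few private points, when `σ` is large compared with `m`. -/
theorem few_private_mid (h₁ : IsAligned X₁ C₁) (h₂ : IsAligned X₂ C₂) {σ m : ℕ} (hm : 1 ≤ m)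
    (hσ : 1 ≤ σ) (hmσ : 2 * m * m ≤ σ + 2 * m)
    (H : ∀ S : Set U, S ⊆ X₁ ∪ X₂ → ((σ + m : ℕ) : ℕ∞) ≤ S.encard →
      (core (sumConv X₁ C₁ X₂ C₂) σ S).Nonempty)
    (hW : (X₁ \ X₂).encard < m) {P₁ P₂ : Set U} (hP₁ : P₁ ⊆ X₁)
    (hc₁ : P₁.encard = ((σ + m : ℕ) : ℕ∞)) (he₁ : core C₁ σ P₁ = ∅) (hP₂ : P₂ ⊆ X₂)
    (hc₂ : P₂.encard = ((σ + m : ℕ) : ℕ∞)) (he₂ : core C₂ σ P₂ = ∅) :
    False := by
  classical
  have hWfin : (X₁ \ X₂).Finite := encard_ne_top_iff.1 (ne_top_of_lt hW)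
  have hadd : ((σ + m : ℕ) : ℕ∞) = (σ : ℕ∞) + m := by
    push_cast
    rfl
  -- subsets with `m` points
  have hsm : ∀ {P : Set U}, P.encard = ((σ + m : ℕ) : ℕ∞) → ∀ M : Set U, M ⊆ P →
      M.encard ≤ σ → ∃ T : Set U, T ⊆ P \ M ∧ T.encard = m := by
    intro P hP M hM hc
    have h1 := encard_sdiff_add_encard_of_subset hM
    rw [hP, hadd] at h1
    have h2 : (m : ℕ∞) ≤ (P \ M).encard := by
      have h3 : (m : ℕ∞) + σ ≤ (P \ M).encard + σ := by
        rw [add_comm, ← h1]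
        exact add_le_add le_rfl hc
      exact (ENat.add_le_add_iff_right (ENat.natCast_ne_top σ)).1 h3
    exact Set.exists_subset_encard_eq h2
  have hT : ∀ w : U, ∃ T : Set U, T ⊆ P₁ ∧ T.encard = m ∧ w ∉ hull C₁ T := by
    intro w
    by_contra hcon
    push Not at hcon
    have : w ∈ core C₁ σ P₁ := by
      intro M hM hc
      obtain ⟨T, hT, hTc⟩ := hsm hc₁ M hM hc
      exact hull_mono hT (hcon T (hT.trans sdiff_subset) hTc)
    rw [he₁] at this
    exact this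
  choose T hTP hTc hTw using hT
  set Q : Set U := ⋃ w ∈ (X₁ \ X₂), T w with hQ
  have hQP : Q ⊆ P₁ := by
    intro x hx
    simp only [hQ, mem_iUnion, exists_prop] at hx
    obtain ⟨w, -, hx⟩ := hx
    exact hTP w hx
  have hQc : Q.encard ≤ (((m - 1) * m : ℕ) : ℕ∞) := by
    refine (union_bound T m (X₁ \ X₂) hWfin (fun w _ => (hTc w).le)).trans ?_
    obtain ⟨v, hv⟩ := ENat.ne_top_iff_exists.1 (ne_top_of_lt hW)
    rw [← hv] at hW ⊢
    have h6 : v < m := by exact_mod_cast hW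
    have h7 : v * m ≤ (m - 1) * m := Nat.mul_le_mul_right _ (by omega)
    exact_mod_cast h7
  set N : Set U := {u | u ∈ X₂ ∧ (u ∉ X₁ ∨ ∀ w ∈ X₁ \ X₂, u ∈ hull C₁ (T w))} with hN
  have hNX : N ⊆ X₂ := fun u hu => hu.1
  have hcutT : ∀ {S A : Set U}, S.encard = ((σ + m : ℕ) : ℕ∞) → A ⊆ S → A.encard = m →
      (S \ A).encard ≤ σ := by
    intro S A hS hA hAc
    have h1 := encard_sdiff_add_encard_of_subset hA
    rw [hS, hAc, hadd] at h1
    exact (ENat.add_le_add_iff_right (ENat.natCast_ne_top m)).1 h1.le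
  have Q0 : ∀ A : Set U, A ⊆ X₁ ∪ X₂ → (Q ∪ A).encard ≤ ((σ + m : ℕ) : ℕ∞) →
      ∃ S : Set U, Q ∪ A ⊆ S ∧ S.encard = ((σ + m : ℕ) : ℕ∞) ∧
        ∃ u ∈ N, u ∈ core C₂ σ (S ∩ X₂) := by
    intro A hA hc
    obtain ⟨S, hS1, hS2, hS3⟩ := exists_superset_subset_encard_eq
      (union_subset (hQP.trans (hP₁.trans subset_union_left)) hA) hc (by
        rw [← hc₁]
        exact encard_le_encard (hP₁.trans subset_union_left))
    refine ⟨S, hS1, hS3, ?_⟩
    have hcl : ∀ u ∈ core C₁ σ (S ∩ X₁), ∀ w ∈ X₁ \ X₂, u ∈ hull C₁ (T w) := by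
      intro u hu w hw
      have hTS : T w ⊆ S := by
        intro x hx
        refine hS1 (Or.inl ?_)
        simp only [hQ, mem_iUnion, exists_prop]
        exact ⟨w, hw, hx⟩
      have h1 := hu ((S ∩ X₁) \ T w) sdiff_subset
        ((encard_le_encard (sdiff_subset_sdiff_left inter_subset_left)).trans
          (hcutT hS3 hTS (hTc w)))
      refine hull_mono ?_ h1
      rintro x ⟨hx, hx2⟩
      by_contra hx3
      exact hx2 ⟨hx, hx3⟩
    obtain ⟨u, hu⟩ := H S hS2 hS3.ge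
    rw [mem_core_sum h₁ h₂ hS2] at hu
    rcases hu with hu | hu | hu
    · have hu1 : u ∈ X₁ := core_sub h₁ inter_subset_right hu.1
      exact absurd (hcl u hu.1 u ⟨hu1, hu.2⟩) (hTw u)
    · exact ⟨u, ⟨core_sub h₂ inter_subset_right hu.1, Or.inl hu.2⟩, hu.1⟩
    · exact ⟨u, ⟨core_sub h₂ inter_subset_right hu.2, Or.inr (hcl u hu.1)⟩, hu.2⟩
  have Qs : ∀ 𝓜 : Finset (Set U), 𝓜.card ≤ m → (∀ M ∈ 𝓜, M ⊆ P₂ ∧ M.encard ≤ σ) →
      ∃ u ∈ N, ∀ M ∈ 𝓜, u ∈ hull C₂ (P₂ \ M) := by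
    intro 𝓜 hcard hM
    have hB : ∀ M : Set U, ∃ B : Set U, B.encard = m ∧ B ⊆ P₂ ∧ (M ∈ 𝓜 → B ⊆ P₂ \ M) := by
      intro M
      by_cases hMM : M ∈ 𝓜
      · obtain ⟨B, hB, hBc⟩ := hsm hc₂ M (hM M hMM).1 (hM M hMM).2
        exact ⟨B, hBc, hB.trans sdiff_subset, fun _ => hB⟩
      · obtain ⟨B, hB, hBc⟩ := hsm hc₂ ∅ (empty_subset _) (by simp)
        exact ⟨B, hBc, hB.trans sdiff_subset, fun h => absurd h hMM⟩
    choose B hBc hBP hBM using hB
    have hUc : (⋃ M ∈ (𝓜 : Set (Set U)), B M).encard ≤ ((m * m : ℕ) : ℕ∞) := by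
      refine (union_bound B m (𝓜 : Set (Set U)) 𝓜.finite_toSet (fun M _ => (hBc M).le)).trans ?_
      rw [encard_coe_eq_coe_finsetCard]
      have := Nat.mul_le_mul_right m hcard
      exact_mod_cast this
    obtain ⟨S, hS1, hS3, u, hu, hu2⟩ := Q0 (⋃ M ∈ (𝓜 : Set (Set U)), B M) (by
      intro x hx
      simp only [mem_iUnion, exists_prop] at hx
      obtain ⟨M, -, hx⟩ := hx
      exact Or.inr (hP₂ (hBP M hx))) (by
      refine (encard_union_le _ _).trans ((add_le_add hQc hUc).trans ?_)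
      have h7 : (m - 1) * m + m = m * m := by
        obtain ⟨s, rfl⟩ : ∃ s, m = s + 1 := ⟨m - 1, by omega⟩
        have : s + 1 - 1 = s := by omega
        rw [this]
        ring
      have h8 : (m - 1) * m + m * m ≤ σ + m := by
        have : 2 * m * m = m * m + m * m := by ring
        omega
      exact_mod_cast h8)
    refine ⟨u, hu, fun M hMM => ?_⟩
    have hBS : B M ⊆ S := by
      intro x hx
      refine hS1 (Or.inr ?_)
      simp only [mem_iUnion, exists_prop]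
      exact ⟨M, hMM, hx⟩
    have h1 := hu2 ((S ∩ X₂) \ B M) sdiff_subset
      ((encard_le_encard (sdiff_subset_sdiff_left inter_subset_left)).trans
        (hcutT hS3 hBS (hBc M)))
    refine hull_mono ?_ h1
    rintro x ⟨hx, hx2⟩
    refine hBM M hMM ?_
    by_contra hx3
    exact hx2 ⟨hx, hx3⟩
  have Q1 : ∀ F : Set U, F ⊆ N → ((m + 1 : ℕ) : ℕ∞) ≤ F.encard →
      ∃ u ∈ N, ∀ y ∈ F, u ∈ hull C₂ (F \ {y}) := by
    intro F hF hc
    obtain ⟨F', hF', hc'⟩ := Set.exists_subset_encard_eq hc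
    obtain ⟨S, hS1, hS3, u, hu, hu2⟩ := Q0 F' (hF'.trans (hF.trans
      (hNX.trans subset_union_right))) (by
      refine (encard_union_le _ _).trans ((add_le_add hQc hc'.le).trans ?_)
      have h7 : (m - 1) * m + m = m * m := by
        obtain ⟨s, rfl⟩ : ∃ s, m = s + 1 := ⟨m - 1, by omega⟩
        have : s + 1 - 1 = s := by omega
        rw [this]
        ring
      have h8 : (m - 1) * m + (m + 1) ≤ σ + m := by
        have h9 : 2 * m * m = m * m + m * m := by ring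
        rcases Nat.lt_or_ge m 2 with h10 | h10
        · have : m = 1 := by omega
          subst this
          omega
        · have h11 : m * 2 ≤ m * m := Nat.mul_le_mul_left _ h10
          omega
      exact_mod_cast h8)
    have key : ∀ y ∈ F', u ∈ hull C₂ (F' \ {y}) := by
      intro y hy
      have hM : ((S ∩ X₂) \ (F' \ {y})).encard ≤ σ := by
        refine (encard_le_encard (sdiff_subset_sdiff_left inter_subset_left)).trans ?_
        refine hcutT hS3 (sdiff_subset.trans (subset_union_right.trans hS1)) ?_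
        have h3 := encard_sdiff_singleton_add_one hy
        rw [hc'] at h3
        have h4 : ((m + 1 : ℕ) : ℕ∞) = (m : ℕ∞) + 1 := by
          push_cast
          rfl
        rw [h4] at h3
        exact le_antisymm (can1 h3.le) (can1 h3.ge)
      refine hull_mono ?_ (hu2 _ sdiff_subset hM)
      rintro x ⟨hx, hx2⟩
      by_contra hx3
      exact hx2 ⟨hx, hx3⟩
    refine ⟨u, hu, fun y hy => ?_⟩
    by_cases hyF : y ∈ F'
    · exact hull_mono (sdiff_subset_sdiff_left hF') (key y hyF)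
    · have hne : F'.Nonempty := by
        rw [← encard_ne_zero, hc']
        exact_mod_cast Nat.succ_ne_zero m
      obtain ⟨y', hy'⟩ := hne
      refine hull_mono ?_ (key y' hy')
      rintro x ⟨hx, -⟩
      refine ⟨hF' hx, ?_⟩
      rintro rfl
      exact hyF hx
  have hfinS : {M : Set U | M ⊆ P₂ ∧ M.encard ≤ σ}.Finite :=
    (finite_of_encard_eq_coe hc₂).finite_subsets.subset (fun M hM => hM.1)
  obtain ⟨u, -, hu⟩ := family h₂ hP₂ Q1 Qs _ hfinS.toFinset rfl (fun M hM => by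
    rw [Set.Finite.mem_toFinset] at hM
    exact hM)
  have : u ∈ core C₂ σ P₂ := by
    intro M hM hc
    exact hu M (by
      rw [Set.Finite.mem_toFinset]
      exact ⟨hM, hc⟩)
  rw [he₂] at this
  exact this

/-- The bound `σ + m` when both numbers are at least `σ + m` and `2m(m-1) ≤ σ`. -/
theorem lower_mid (h₁ : IsAligned X₁ C₁) (h₂ : IsAligned X₂ C₂) {σ m : ℕ} (hm : 1 ≤ m)
    (hσ : 1 ≤ σ) (hmσ : 2 * m * m ≤ σ + 2 * m) (a₁ : ((σ + m : ℕ) : ℕ∞) ≤ helly X₁ C₁ σ)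
    (a₂ : ((σ + m : ℕ) : ℕ∞) ≤ helly X₂ C₂ σ) :
    ((σ + m : ℕ) : ℕ∞) ≤ helly (X₁ ∪ X₂) (sumConv X₁ C₁ X₂ C₂) σ := by
  by_contra hcon
  have hmle : m ≤ σ := by
    rcases Nat.lt_or_ge m 2 with h10 | h10
    · omega
    · have h11 : m * 2 ≤ m * m := Nat.mul_le_mul_left _ h10
      have h9 : 2 * m * m = m * m + m * m := by ring
      omega
  have H : ∀ S : Set U, S ⊆ X₁ ∪ X₂ → ((σ + m : ℕ) : ℕ∞) ≤ S.encard →
      (core (sumConv X₁ C₁ X₂ C₂) σ S).Nonempty := by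
    intro S hS hc
    by_contra hn
    rw [not_nonempty_iff_eq_empty] at hn
    exact hcon (hc.trans (le_helly hS hn))
  have H' : ∀ S : Set U, S ⊆ X₂ ∪ X₁ → ((σ + m : ℕ) : ℕ∞) ≤ S.encard →
      (core (sumConv X₂ C₂ X₁ C₁) σ S).Nonempty := by
    intro S hS hc
    rw [sumConv_comm]
    rw [union_comm] at hS
    exact H S hS hc
  have get : ∀ {X : Set U} {C : Set (Set U)}, ((σ + m : ℕ) : ℕ∞) ≤ helly X C σ →
      ∃ P : Set U, P ⊆ X ∧ P.encard = ((σ + m : ℕ) : ℕ∞) ∧ core C σ P = ∅ := by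
    intro X C hj
    obtain ⟨j, hj2⟩ : ∃ j, σ + m = j + 1 := ⟨σ + m - 1, by omega⟩
    rw [hj2] at hj ⊢
    have hlt : (j : ℕ∞) < helly X C σ := by
      refine lt_of_lt_of_le ?_ hj
      exact_mod_cast Nat.lt_succ_self j
    obtain ⟨S, hS, hc, he⟩ := exists_of_lt hlt
    obtain ⟨P, hP, hq⟩ := Set.exists_subset_encard_eq hc
    exact ⟨P, hP.trans hS, by rw [hq]; norm_cast, subset_eq_empty (core_mono hP) he⟩
  obtain ⟨P₁, hP₁, hc₁, he₁⟩ := get a₁
  obtain ⟨P₂, hP₂, hc₂, he₂⟩ := get a₂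
  by_cases hW : (X₁ \ X₂).encard < m
  · exact few_private_mid h₁ h₂ hm hσ hmσ H hW hP₁ hc₁ he₁ hP₂ hc₂ he₂
  by_cases hZ : (X₂ \ X₁).encard < m
  · exact few_private_mid h₂ h₁ hm hσ hmσ H' hZ hP₂ hc₂ he₂ hP₁ hc₁ he₁
  rw [not_lt] at hW hZ
  have hne := many_private h₁ h₂ hmle hW hZ (by
    rw [← hc₁]
    exact encard_le_encard (hP₁.trans subset_union_left))
  obtain ⟨S, hS2, hS3, hemp⟩ := hne
  exact absurd hemp (nonempty_iff_ne_empty.1 (H S hS2 hS3.ge))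

/-- A space whose number is smaller than `σ` is finite, with as many points as the number. -/
theorem small_card {X : Set U} {C : Set (Set U)} {σ : ℕ} (hC : IsAligned X C)
    (ha : helly X C σ < σ) : X.encard = helly X C σ := by
  refine le_antisymm ?_ helly_le_encard
  by_cases hX : X.encard ≤ σ
  · exact le_helly Subset.rfl (core_small hC hX)
  · rw [not_le] at hX
    obtain ⟨T, hT, hTc⟩ := Set.exists_subset_encard_eq hX.le
    have := le_helly hT (core_small hC hTc.le)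
    rw [hTc] at this
    exact absurd ha (not_lt.2 this)

/-- If the first number is smaller than `σ`, the second is a lower bound. -/
theorem lower_small (h₁ : IsAligned X₁ C₁) (h₂ : IsAligned X₂ C₂) {σ : ℕ}
    (a₁ : helly X₁ C₁ σ < σ) :
    helly X₂ C₂ σ ≤ helly (X₁ ∪ X₂) (sumConv X₁ C₁ X₂ C₂) σ := by
  refine le_sInf ?_
  rintro k ⟨j, rfl, hj⟩
  by_contra hcon
  rw [not_le] at hcon
  obtain ⟨S, hS, hc, he⟩ := exists_of_lt hcon
  obtain ⟨z, hz⟩ := hj S (hS.trans subset_union_right) hc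
  have hsm : (S ∩ X₁).encard ≤ σ := by
    refine (encard_le_encard inter_subset_right).trans ?_
    rw [small_card h₁ a₁]
    exact a₁.le
  rw [mem_core_sum h₁ h₂ (hS.trans subset_union_right), core_small h₁ hsm,
    inter_eq_left.2 hS, he] at hz
  simp at hz

theorem zero_case (h₁ : IsAligned X₁ C₁) (h₂ : IsAligned X₂ C₂) {σ : ℕ}
    (hz : X₁.encard = 0) :
    helly (X₁ ∪ X₂) (sumConv X₁ C₁ X₂ C₂) σ ≤ helly X₂ C₂ σ := by
  have hX : X₁ = ∅ := encard_eq_zero.1 hz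
  refine helly_anti (fun S hS => ?_)
  have hS2 : S ⊆ X₂ := by
    intro x hx
    rcases hS hx with h | h
    · rw [hX] at h
      exact absurd h (notMem_empty x)
    · exact h
  refine ⟨hS2, ?_⟩
  rintro ⟨z, hzc⟩
  refine ⟨z, (mem_core_sum h₁ h₂ hS σ z).2 (Or.inr (Or.inl ⟨?_, ?_⟩))⟩
  · rw [inter_eq_left.2 hS2]
    exact hzc
  · rw [hX]
    exact notMem_empty z

/-- The upper bound when both numbers are smaller than `σ`. -/
theorem upper_small {σ : ℕ} (h₁ : IsAligned X₁ C₁) (h₂ : IsAligned X₂ C₂)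
    (a₁ : helly X₁ C₁ σ < σ) (a₂ : helly X₂ C₂ σ < σ) :
    helly (X₁ ∪ X₂) (sumConv X₁ C₁ X₂ C₂) σ ≤ helly X₁ C₁ σ + helly X₂ C₂ σ := by
  refine helly_le_encard.trans ((encard_union_le _ _).trans ?_)
  rw [small_card h₁ a₁, small_card h₂ a₂]

end sums

section star

variable {U : Type}

/-- Subsets of `X` that miss `G` or contain `p`. -/
def starC (X G : Set U) (p : U) : Set (Set U) := {A | A ⊆ X ∧ (A ∩ G = ∅ ∨ p ∈ A)}

theorem star_aligned {X G : Set U} {p : U} (hG : G ⊆ X) (hp : p ∈ G) :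
    IsAligned X (starC X G p) where
  sub := fun A hA => hA.1
  empty := ⟨empty_subset _, Or.inl (empty_inter _)⟩
  whole := ⟨Subset.rfl, Or.inr (hG hp)⟩
  inter := by
    rintro F hF ⟨A₀, hA₀⟩
    refine ⟨(sInter_subset_of_mem hA₀).trans (hF hA₀).1, ?_⟩
    by_cases h : ∃ A ∈ F, A ∩ G = ∅
    · obtain ⟨A, hA, hAG⟩ := h
      exact Or.inl (subset_eq_empty (inter_subset_inter_left _ (sInter_subset_of_mem hA)) hAG)
    · push Not at h
      refine Or.inr (fun A hA => ?_)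
      exact (hF hA).2.resolve_left (nonempty_iff_ne_empty.1 (h A hA))
  chain := by
    rintro F hF - -
    refine ⟨sUnion_subset (fun A hA => (hF hA).1), ?_⟩
    by_cases h : (⋃₀ F) ∩ G = ∅
    · exact Or.inl h
    · obtain ⟨x, ⟨A, hA, hxA⟩, hxG⟩ := nonempty_iff_ne_empty.2 h
      refine Or.inr ⟨A, hA, ?_⟩
      refine (hF hA).2.resolve_left (fun h0 => ?_)
      have : x ∈ A ∩ G := ⟨hxA, hxG⟩
      rw [h0] at this
      exact this

theorem mem_hull_star {X G : Set U} {p : U} (hG : G ⊆ X) (hp : p ∈ G) {T : Set U} (hT : T ⊆ X)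
    (z : U) : z ∈ hull (starC X G p) T ↔ z ∈ T ∨ (z = p ∧ (T ∩ G).Nonempty) := by
  constructor
  · intro hz
    by_cases h : (T ∩ G).Nonempty
    · have := hz (insert p T) ⟨⟨insert_subset (hG hp) hT, Or.inr (mem_insert _ _)⟩,
        subset_insert _ _⟩
      rcases this with h1 | h1
      · exact Or.inr ⟨h1, h⟩
      · exact Or.inl h1
    · exact Or.inl (hz T ⟨⟨hT, Or.inl (not_nonempty_iff_eq_empty.1 h)⟩, Subset.rfl⟩)
  · rintro (h | ⟨rfl, h⟩)
    · exact subset_hull _ h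
    · rintro A ⟨⟨hA1, hA2⟩, hTA⟩
      refine hA2.resolve_left (fun h0 => ?_)
      obtain ⟨x, hx⟩ := h
      have : x ∈ A ∩ G := ⟨hTA hx.1, hx.2⟩
      rw [h0] at this
      exact this

theorem mem_core_star {X G : Set U} {p : U} (hG : G ⊆ X) (hp : p ∈ G) {S : Set U} (hS : S ⊆ X)
    {σ : ℕ} (hσ : 1 ≤ σ) (z : U) :
    z ∈ core (starC X G p) σ S ↔ z = p ∧ (σ : ℕ∞) < (S ∩ G).encard := by
  constructor
  · intro hz
    have hzp : z = p := by
      have h1 := hz (S ∩ {z}) inter_subset_left (by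
        refine (encard_le_encard inter_subset_right).trans ?_
        rw [encard_singleton]
        exact_mod_cast hσ)
      rw [mem_hull_star hG hp (sdiff_subset.trans hS)] at h1
      rcases h1 with h1 | h1
      · exact absurd ⟨h1.1, rfl⟩ h1.2
      · exact h1.1
    refine ⟨hzp, ?_⟩
    by_contra hcon
    rw [not_lt] at hcon
    have h1 := hz (S ∩ G) inter_subset_left hcon
    rw [mem_hull_star hG hp (sdiff_subset.trans hS)] at h1
    rcases h1 with h1 | ⟨-, x, hx, hxG⟩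
    · apply h1.2
      rw [hzp] at h1 ⊢
      exact ⟨h1.1, hp⟩
    · exact hx.2 ⟨hx.1, hxG⟩
  · rintro ⟨rfl, h⟩ M hM hc
    rw [mem_hull_star hG hp (sdiff_subset.trans hS)]
    refine Or.inr ⟨rfl, ?_⟩
    by_contra hcon
    have h1 : S ∩ G ⊆ M := by
      rintro x ⟨hx, hxG⟩
      by_contra hxM
      exact hcon ⟨x, ⟨hx, hxM⟩, hxG⟩
    exact absurd (h.trans_le ((encard_le_encard h1).trans hc)) (lt_irrefl _)

theorem helly_star {X G : Set U} {p : U} (hG : G ⊆ X) (hp : p ∈ G) {σ : ℕ} (hσ : 1 ≤ σ) :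
    helly X (starC X G p) σ = (X \ G).encard + min G.encard σ := by
  apply le_antisymm
  · by_cases htop : (X \ G).encard + min G.encard σ = ⊤
    · rw [htop]
      exact le_top
    · obtain ⟨j, hj⟩ := ENat.ne_top_iff_exists.1 htop
      rw [← hj]
      refine helly_le (fun S hS h => ⟨p, ?_⟩)
      rw [mem_core_star hG hp hS hσ]
      refine ⟨rfl, ?_⟩
      by_contra hcon
      rw [not_lt] at hcon
      have h1 : S.encard ≤ (X \ G).encard + min G.encard σ := by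
        rw [← encard_sdiff_add_encard_inter S G]
        refine add_le_add (encard_le_encard (sdiff_subset_sdiff_left hS)) ?_
        exact le_min (encard_le_encard inter_subset_right) hcon
      rw [← hj] at h1
      have h2 := h.trans h1
      have h3 : j + 1 ≤ j := by exact_mod_cast h2
      omega
  · obtain ⟨G', hG', hc⟩ := Set.exists_subset_encard_eq (s := G) (k := min G.encard σ)
      (min_le_left _ _)
    have hdis : Disjoint (X \ G) G' := by
      rw [Set.disjoint_left]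
      intro x hx hx'
      exact hx.2 (hG' hx')
    rw [← hc, ← encard_union_eq hdis]
    refine le_helly (union_subset sdiff_subset (hG'.trans hG)) (subset_eq_empty (fun z hz => ?_) rfl)
    rw [mem_core_star hG hp (union_subset sdiff_subset (hG'.trans hG)) hσ] at hz
    have h1 : ((X \ G) ∪ G') ∩ G = G' := by
      ext x
      constructor
      · rintro ⟨hx | hx, hxG⟩
        · exact absurd hxG hx.2
        · exact hx
      · intro hx
        exact ⟨Or.inr hx, hG' hx⟩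
    rw [h1, hc] at hz
    exact absurd (hz.2.trans_le (min_le_right _ _)) (lt_irrefl _)

end star

section free

variable {U : Type}

/-- All subsets of `X`. -/
def freeC (X : Set U) : Set (Set U) := {A | A ⊆ X}

theorem free_aligned (X : Set U) : IsAligned X (freeC X) where
  sub := fun A hA => hA
  empty := empty_subset _
  whole := Subset.rfl
  inter := by
    rintro F hF ⟨A₀, hA₀⟩
    exact (sInter_subset_of_mem hA₀).trans (hF hA₀)
  chain := by
    rintro F hF - -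
    exact sUnion_subset (fun A hA => hF hA)

theorem core_free {X S : Set U} (hS : S ⊆ X) {σ : ℕ} (hσ : 1 ≤ σ) : core (freeC X) σ S = ∅ := by
  refine subset_eq_empty (fun z hz => ?_) rfl
  have h1 := hz (S ∩ {z}) inter_subset_left (by
    refine (encard_le_encard inter_subset_right).trans ?_
    rw [encard_singleton]
    exact_mod_cast hσ)
  have h2 : z ∈ S \ (S ∩ {z}) := h1 _ ⟨sdiff_subset.trans hS, Subset.rfl⟩
  exact h2.2 ⟨h2.1, rfl⟩

theorem helly_free {X : Set U} {σ : ℕ} (hσ : 1 ≤ σ) : helly X (freeC X) σ = X.encard :=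
  le_antisymm helly_le_encard (le_helly Subset.rfl (core_free Subset.rfl hσ))

end free

/-- The possible values of the `σ`-Helly number of the aligned sum of two spaces whose
`σ`-Helly numbers are `a` and `b`. -/
def Values (σ : ℕ) (a b : ℕ∞) : Set ℕ∞ :=
  {c | ∃ (U : Type) (X₁ X₂ : Set U) (C₁ C₂ : Set (Set U)), IsAligned X₁ C₁ ∧ IsAligned X₂ C₂ ∧
    helly X₁ C₁ σ = a ∧ helly X₂ C₂ σ = b ∧
    helly (X₁ ∪ X₂) (sumConv X₁ C₁ X₂ C₂) σ = c}

theorem Values_comm {σ : ℕ} {a b c : ℕ∞} (h : c ∈ Values σ a b) : c ∈ Values σ b a := by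
  obtain ⟨U, X₁, X₂, C₁, C₂, h1, h2, h3, h4, h5⟩ := h
  refine ⟨U, X₂, X₁, C₂, C₁, h2, h1, h4, h3, ?_⟩
  rw [union_comm, sumConv_comm]
  exact h5

section examples

theorem row_encard (i : ℕ) : ({x : ℕ × ℕ | x.1 = i}).encard = ⊤ := by
  refine Set.Infinite.encard_eq ?_
  refine Set.infinite_of_injective_forall_mem (f := fun n : ℕ => (i, n)) ?_ (fun n => rfl)
  intro m n h
  exact (Prod.mk.inj h).2

theorem row_exists (i : ℕ) (c : ℕ∞) :
    ∃ D : Set (ℕ × ℕ), (∀ x ∈ D, x.1 = i) ∧ D.encard = c := by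
  obtain ⟨D, hD, hc⟩ := Set.exists_subset_encard_eq (s := {x : ℕ × ℕ | x.1 = i}) (k := c)
    (by rw [row_encard]; exact le_top)
  exact ⟨D, hD, hc⟩

theorem row_exists' (c : ℕ∞) :
    ∃ D : Set (ℕ × ℕ), (∀ x ∈ D, x.1 = 0 ∧ x ≠ (0, 0)) ∧ D.encard = c := by
  have hinf : ({x : ℕ × ℕ | x.1 = 0} \ {((0 : ℕ), (0 : ℕ))}).encard = ⊤ := by
    refine Set.Infinite.encard_eq ?_
    refine Set.Infinite.sdiff ?_ (finite_singleton _)
    rw [← encard_eq_top_iff]
    exact row_encard 0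
  obtain ⟨D, hD, hc⟩ := Set.exists_subset_encard_eq
    (s := {x : ℕ × ℕ | x.1 = 0} \ {((0 : ℕ), (0 : ℕ))}) (k := c) (by rw [hinf]; exact le_top)
  exact ⟨D, fun x hx => ⟨(hD hx).1, (hD hx).2⟩, hc⟩

/-- One space inside the other. -/
theorem ex_nested {σ : ℕ} (hσ : 1 ≤ σ) {a : ℕ∞} (b : ℕ∞) (ha : σ ≤ a) :
    ∃ c ∈ Values σ a b, c ≤ a := by
  obtain ⟨a', rfl⟩ := exists_add_of_le ha
  obtain ⟨D, hD, hDc⟩ := row_exists 1 a'
  obtain ⟨E, hE, hEc⟩ := row_exists' b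
  have hG : {x : ℕ × ℕ | x.1 = 0} ⊆ {x : ℕ × ℕ | x.1 = 0} ∪ D := subset_union_left
  have hp : ((0, 0) : ℕ × ℕ) ∈ {x : ℕ × ℕ | x.1 = 0} := rfl
  have h1 := star_aligned hG hp
  have h2 := free_aligned E
  have hv : helly ({x : ℕ × ℕ | x.1 = 0} ∪ D)
      (starC ({x : ℕ × ℕ | x.1 = 0} ∪ D) {x : ℕ × ℕ | x.1 = 0} (0, 0)) σ = σ + a' := by
    rw [helly_star hG hp hσ]
    have : (({x : ℕ × ℕ | x.1 = 0} ∪ D) \ {x : ℕ × ℕ | x.1 = 0}) = D := by
      ext x
      constructor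
      · rintro ⟨h | h, h'⟩
        · exact absurd h h'
        · exact h
      · intro h
        refine ⟨Or.inr h, fun h' => ?_⟩
        have e1 := hD x h
        have e2 : x.1 = 0 := h'
        omega
    rw [this, hDc, row_encard, min_eq_right le_top, add_comm]
  refine ⟨_, ⟨ℕ × ℕ, _, E, _, freeC E, h1, h2, hv, ?_, rfl⟩, ?_⟩
  · rw [helly_free hσ, hEc]
  · rw [← hv]
    have hEX : E ⊆ {x : ℕ × ℕ | x.1 = 0} ∪ D := fun x hx => Or.inl (hE x hx).1
    refine helly_anti (fun S hS => ?_)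
    have hS' : S ⊆ {x : ℕ × ℕ | x.1 = 0} ∪ D := by
      rw [union_eq_left.2 hEX] at hS
      exact hS
    refine ⟨hS', ?_⟩
    rintro ⟨z, hz⟩
    refine ⟨z, (mem_core_sum h1 h2 hS σ z).2 (Or.inl ⟨?_, ?_⟩)⟩
    · rw [inter_eq_left.2 hS']
      exact hz
    · rw [mem_core_star hG hp hS' hσ] at hz
      rw [hz.1]
      intro h
      exact (hE _ h).2 rfl

/-- Two overlapping spaces with `h ≤ 2σ`. -/
theorem ex_two {σ : ℕ} (hσ : 1 ≤ σ) {a b : ℕ∞} (ha : σ ≤ a) (hb : σ ≤ b) :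
    ∃ c ∈ Values σ a b, c ≤ 2 * σ := by
  obtain ⟨a', rfl⟩ := exists_add_of_le ha
  obtain ⟨b', rfl⟩ := exists_add_of_le hb
  obtain ⟨S₁, hS₁, hc₁⟩ := row_exists 1 a'
  obtain ⟨S₂, hS₂, hc₂⟩ := row_exists 2 b'
  obtain ⟨H, hH, hHc⟩ := row_exists 3 ⊤
  set G₁ : Set (ℕ × ℕ) := insert (0, 0) (S₂ ∪ H) with hG₁
  set G₂ : Set (ℕ × ℕ) := insert (0, 1) (S₁ ∪ H) with hG₂
  have g₁ : G₁ ⊆ S₁ ∪ G₁ := subset_union_right
  have g₂ : G₂ ⊆ S₂ ∪ G₂ := subset_union_right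
  have p₁ : ((0, 0) : ℕ × ℕ) ∈ G₁ := mem_insert _ _
  have p₂ : ((0, 1) : ℕ × ℕ) ∈ G₂ := mem_insert _ _
  have h1 := star_aligned g₁ p₁
  have h2 := star_aligned g₂ p₂
  have t₁ : G₁.encard = ⊤ := by
    refine top_le_iff.1 (hHc.symm.le.trans (encard_le_encard ?_))
    exact fun x hx => Or.inr (Or.inr hx)
  have t₂ : G₂.encard = ⊤ := by
    refine top_le_iff.1 (hHc.symm.le.trans (encard_le_encard ?_))
    exact fun x hx => Or.inr (Or.inr hx)
  have d₁ : (S₁ ∪ G₁) \ G₁ = S₁ := by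
    ext x
    constructor
    · rintro ⟨h | h, h'⟩
      · exact h
      · exact absurd h h'
    · intro h
      refine ⟨Or.inl h, ?_⟩
      have e1 := hS₁ x h
      rintro (rfl | h' | h')
      · simp at e1
      · have e2 := hS₂ x h'
        omega
      · have e2 := hH x h'
        omega
  have d₂ : (S₂ ∪ G₂) \ G₂ = S₂ := by
    ext x
    constructor
    · rintro ⟨h | h, h'⟩
      · exact h
      · exact absurd h h'
    · intro h
      refine ⟨Or.inl h, ?_⟩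
      have e1 := hS₂ x h
      rintro (rfl | h' | h')
      · simp at e1
      · have e2 := hS₁ x h'
        omega
      · have e2 := hH x h'
        omega
  refine ⟨_, ⟨ℕ × ℕ, S₁ ∪ G₁, S₂ ∪ G₂, starC (S₁ ∪ G₁) G₁ (0, 0), starC (S₂ ∪ G₂) G₂ (0, 1),
    h1, h2, ?_, ?_, rfl⟩, ?_⟩
  · rw [helly_star g₁ p₁ hσ, d₁, t₁, hc₁, min_eq_right le_top, add_comm]
  · rw [helly_star g₂ p₂ hσ, d₂, t₂, hc₂, min_eq_right le_top, add_comm]
  · have hcast : (2 * (σ : ℕ∞)) = ((2 * σ : ℕ) : ℕ∞) := by push_cast; rfl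
    rw [hcast]
    refine helly_le (fun S hS hc => ?_)
    have hcov : S ⊆ (S ∩ G₁) ∪ (S ∩ G₂) := by
      intro x hx
      rcases hS hx with (h | h) | (h | h)
      · exact Or.inr ⟨hx, Or.inr (Or.inl h)⟩
      · exact Or.inl ⟨hx, h⟩
      · exact Or.inl ⟨hx, Or.inr (Or.inl h)⟩
      · exact Or.inr ⟨hx, h⟩
    have hbig : (σ : ℕ∞) < (S ∩ G₁).encard ∨ (σ : ℕ∞) < (S ∩ G₂).encard := by
      by_contra hcon
      push Not at hcon
      have h3 := hc.trans ((encard_le_encard hcov).trans ((encard_union_le _ _).trans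
        (add_le_add hcon.1 hcon.2)))
      have h4 : 2 * σ + 1 ≤ σ + σ := by exact_mod_cast h3
      omega
    rcases hbig with hb | hb
    · refine ⟨(0, 0), (mem_core_sum h1 h2 hS σ _).2 (Or.inl ⟨?_, ?_⟩)⟩
      · rw [mem_core_star g₁ p₁ inter_subset_right hσ, inter_assoc, inter_eq_right.2 g₁]
        exact ⟨rfl, hb⟩
      · rintro (h | h | h | h)
        · have := hS₂ _ h
          simp at this
        · simp at h
        · have := hS₁ _ h
          simp at this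
        · have := hH _ h
          simp at this
    · refine ⟨(0, 1), (mem_core_sum h1 h2 hS σ _).2 (Or.inr (Or.inl ⟨?_, ?_⟩))⟩
      · rw [mem_core_star g₂ p₂ inter_subset_right hσ, inter_assoc, inter_eq_right.2 g₂]
        exact ⟨rfl, hb⟩
      · rintro (h | h | h | h)
        · have := hS₁ _ h
          simp at this
        · simp at h
        · have := hS₂ _ h
          simp at this
        · have := hH _ h
          simp at this

/-- Two spaces sharing one point whose sum has infinite number. -/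
theorem ex_top {σ : ℕ} (hσ : 1 ≤ σ) {a b : ℕ∞} (ha : a ≠ 0) (hb : σ ≤ b) :
    ⊤ ∈ Values σ a b := by
  obtain ⟨a', rfl⟩ := exists_add_of_le (Order.one_le_iff_pos.2 (pos_iff_ne_zero.2 ha))
  obtain ⟨b', rfl⟩ := exists_add_of_le hb
  obtain ⟨E, hE, hEc⟩ := row_exists 1 a'
  obtain ⟨D, hD, hDc⟩ := row_exists 2 b'
  have hG : {x : ℕ × ℕ | x.1 = 0} ⊆ {x : ℕ × ℕ | x.1 = 0} ∪ D := subset_union_left
  have hp : ((0, 0) : ℕ × ℕ) ∈ {x : ℕ × ℕ | x.1 = 0} := rfl
  have h1 := free_aligned (insert ((0, 0) : ℕ × ℕ) E)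
  have h2 := star_aligned hG hp
  refine ⟨ℕ × ℕ, insert (0, 0) E, _, freeC (insert (0, 0) E), _, h1, h2, ?_, ?_, ?_⟩
  · rw [helly_free hσ, encard_insert_of_notMem, hEc, add_comm]
    intro h
    have := hE _ h
    simp at this
  · rw [helly_star hG hp hσ]
    have : (({x : ℕ × ℕ | x.1 = 0} ∪ D) \ {x : ℕ × ℕ | x.1 = 0}) = D := by
      ext x
      constructor
      · rintro ⟨h | h, h'⟩
        · exact absurd h h'
        · exact h
      · intro h
        refine ⟨Or.inr h, fun h' => ?_⟩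
        have e1 := hD x h
        have e2 : x.1 = 0 := h'
        omega
    rw [this, hDc, row_encard, min_eq_right le_top, add_comm]
  · have hinf : ({x : ℕ × ℕ | x.1 = 0} \ {((0 : ℕ), (0 : ℕ))}).encard = ⊤ := by
      refine Set.Infinite.encard_eq ?_
      refine Set.Infinite.sdiff ?_ (finite_singleton _)
      rw [← encard_eq_top_iff]
      exact row_encard 0
    have hS : {x : ℕ × ℕ | x.1 = 0} \ {((0 : ℕ), (0 : ℕ))} ⊆
        insert ((0, 0) : ℕ × ℕ) E ∪ ({x : ℕ × ℕ | x.1 = 0} ∪ D) := by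
      intro x hx
      exact Or.inr (Or.inl hx.1)
    refine top_le_iff.1 (hinf.symm.le.trans (le_helly hS (subset_eq_empty (fun z hz => ?_) rfl)))
    rw [mem_core_sum h1 h2 hS, core_free inter_subset_right hσ] at hz
    simp only [mem_empty_iff_false, false_and, false_or, or_false] at hz
    have h3 := hz.1
    rw [mem_core_star hG hp inter_subset_right hσ] at h3
    apply hz.2
    rw [h3.1]
    exact mem_insert _ _

/-- Finite spaces, one inside the other. -/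
theorem ex_small {σ : ℕ} (hσ : 1 ≤ σ) {a b : ℕ∞} (hab : a ≤ b) :
    ∃ c ∈ Values σ a b, c ≤ b := by
  obtain ⟨D, hD, hDc⟩ := row_exists 0 b
  rw [← hDc] at hab
  obtain ⟨E, hE, hEc⟩ := Set.exists_subset_encard_eq hab
  refine ⟨_, ⟨ℕ × ℕ, E, D, freeC E, freeC D, free_aligned E, free_aligned D, ?_, ?_, rfl⟩, ?_⟩
  · rw [helly_free hσ, hEc]
  · rw [helly_free hσ, hDc]
  · refine helly_le_encard.trans ?_
    rw [union_eq_right.2 hE, hDc]

/-- Disjoint free spaces. -/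
theorem ex_disjoint {σ : ℕ} (hσ : 1 ≤ σ) (a b : ℕ∞) :
    ∃ c ∈ Values σ a b, a + b ≤ c := by
  obtain ⟨D, hD, hDc⟩ := row_exists 0 a
  obtain ⟨E, hE, hEc⟩ := row_exists 1 b
  refine ⟨_, ⟨ℕ × ℕ, D, E, freeC D, freeC E, free_aligned D, free_aligned E, ?_, ?_, rfl⟩, ?_⟩
  · rw [helly_free hσ, hDc]
  · rw [helly_free hσ, hEc]
  · have hdis : Disjoint D E := by
      rw [Set.disjoint_left]
      intro x hx hx'
      have e1 := hD x hx
      have e2 := hE x hx'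
      omega
    rw [← hDc, ← hEc, ← encard_union_eq hdis]
    refine le_helly Subset.rfl (subset_eq_empty (fun z hz => ?_) rfl)
    rw [mem_core_sum (free_aligned D) (free_aligned E) Subset.rfl,
      core_free inter_subset_right hσ, core_free inter_subset_right hσ] at hz
    simp at hz

end examples

/-- **Main theorem.** The best possible bounds for the `σ`-Helly number of the aligned sum in
terms of the two `σ`-Helly numbers `a`, `b`. -/
theorem result (σ : ℕ) (hσ : 1 ≤ σ) (a b : ℕ∞) :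
    (a < σ → b < σ → IsGreatest (Values σ a b) (a + b)) ∧
    (a = 0 ∨ b = 0 → IsGreatest (Values σ a b) (max a b)) ∧
    (a ≠ 0 → b ≠ 0 → (σ ≤ a ∨ σ ≤ b) → IsGreatest (Values σ a b) ⊤) ∧
    (a < σ ∨ b < σ → IsLeast (Values σ a b) (max a b)) ∧
    (σ ≤ a → σ ≤ b →
      (σ ≤ 2 ∨ min a b ≤ σ + 2 ∨ ∃ m : ℕ, 2 * m * m ≤ σ + 2 * m ∧ min a b ≤ σ + m) →
      IsLeast (Values σ a b) (min (min a b) (2 * σ))) ∧
    (σ * (σ + 1) ≤ a → σ * (σ + 1) ≤ b → IsLeast (Values σ a b) (2 * σ)) ∧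
    (σ ≤ a → σ ≤ b →
      (∀ c ∈ Values σ a b, ∀ m : ℕ, m ≤ σ →
        (m ≤ 2 ∨ 2 * m * m ≤ σ + 2 * m ∨ (m * (σ + 1) ≤ a ∧ m * (σ + 1) ≤ b)) →
        min (min a b) (σ + m) ≤ c) ∧
      ∃ c ∈ Values σ a b, c ≤ min (min a b) (2 * σ)) := by
  -- lower bounds
  have lowA : ∀ {a b : ℕ∞}, a < σ → ∀ c ∈ Values σ a b, max a b ≤ c := by
    rintro a b ha c ⟨U, X₁, X₂, C₁, C₂, h1, h2, rfl, rfl, rfl⟩
    refine max_le ?_ (lower_small h1 h2 ha)
    by_cases hb : helly X₂ C₂ σ < σ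
    · have := lower_small h2 h1 hb
      rw [union_comm, sumConv_comm] at this
      exact this
    · rw [not_lt] at hb
      exact ha.le.trans (hb.trans (lower_small h1 h2 ha))
  have low1 : ∀ {a b : ℕ∞}, (a < σ ∨ b < σ) → ∀ c ∈ Values σ a b, max a b ≤ c := by
    rintro a b (h | h) c hc
    · exact lowA h c hc
    · rw [max_comm]
      exact lowA h c (Values_comm hc)
  have low2 : ∀ {a b : ℕ∞}, σ ≤ a → σ ≤ b →
      ∀ c ∈ Values σ a b, min (min a b) ((σ + min σ 2 : ℕ) : ℕ∞) ≤ c := by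
    rintro a b ha hb c ⟨U, X₁, X₂, C₁, C₂, h1, h2, rfl, rfl, rfl⟩
    exact lower_big h1 h2 hσ ha hb
  have lowσ : σ ≤ a → σ ≤ b → ∀ c ∈ Values σ a b, (σ : ℕ∞) ≤ c := by
    intro ha hb c hc
    refine le_trans (le_min (le_min ha hb) ?_) (low2 ha hb c hc)
    push_cast
    exact le_self_add
  have low3 : σ ≤ a → σ ≤ b → ∀ c ∈ Values σ a b, ∀ m : ℕ, m ≤ σ →
      m * (σ + 1) ≤ a → m * (σ + 1) ≤ b → σ + m ≤ c := by
    intro ha hb c hc m hm h3 h4
    rcases Nat.eq_zero_or_pos m with rfl | hpos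
    · simpa using lowσ ha hb c hc
    · obtain ⟨U, X₁, X₂, C₁, C₂, h1, h2, h5, h6, rfl⟩ := hc
      have := lower_large h1 h2 hpos hm
        (by rw [h5]; push_cast; rw [mul_add, mul_one] at h3; exact h3)
        (by rw [h6]; push_cast; rw [mul_add, mul_one] at h4; exact h4)
      push_cast at this
      exact this
  have low4 : σ ≤ a → σ ≤ b → ∀ c ∈ Values σ a b, ∀ m : ℕ, 2 * m * m ≤ σ + 2 * m →
      min (min a b) (σ + m) ≤ c := by
    intro ha hb c hc m hm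
    -- the value of the minimum is `σ + m'` with `m' ≤ m`
    have hfinite : min (min a b) ((σ : ℕ∞) + m) ≠ ⊤ :=
      ne_top_of_le_ne_top (ENat.natCast_ne_top (σ + m)) (by push_cast; exact min_le_right _ _)
    obtain ⟨k, hk⟩ := ENat.ne_top_iff_exists.1 hfinite
    have k1 : (k : ℕ∞) ≤ a := by
      rw [hk]
      exact (min_le_left _ _).trans (min_le_left _ _)
    have k2 : (k : ℕ∞) ≤ b := by
      rw [hk]
      exact (min_le_left _ _).trans (min_le_right _ _)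
    have k3 : k ≤ σ + m := by
      have : (k : ℕ∞) ≤ ((σ + m : ℕ) : ℕ∞) := by
        rw [hk]
        push_cast
        exact min_le_right _ _
      exact_mod_cast this
    have k4 : σ ≤ k := by
      have : (σ : ℕ∞) ≤ (k : ℕ∞) := by
        rw [hk]
        exact le_min (le_min ha hb) le_self_add
      exact_mod_cast this
    rw [← hk]
    obtain ⟨m', rfl⟩ := Nat.exists_eq_add_of_le k4
    rcases Nat.eq_zero_or_pos m' with rfl | hpos
    · simpa using lowσ ha hb c hc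
    · have hmm : 2 * m' * m' ≤ σ + 2 * m' := by
        have h1 : m' ≤ m := by omega
        obtain ⟨d, rfl⟩ := Nat.exists_eq_add_of_le h1
        rcases Nat.eq_zero_or_pos d with rfl | hd
        · simpa using hm
        · nlinarith [Nat.mul_le_mul hpos hd]
      obtain ⟨U, X₁, X₂, C₁, C₂, h1, h2, h5, h6, rfl⟩ := hc
      exact lower_mid h1 h2 hpos hσ hmm (by rw [h5]; exact k1) (by rw [h6]; exact k2)
  have lowAll : σ ≤ a → σ ≤ b → ∀ c ∈ Values σ a b, ∀ m : ℕ, m ≤ σ →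
      (m ≤ 2 ∨ 2 * m * m ≤ σ + 2 * m ∨ (m * (σ + 1) ≤ a ∧ m * (σ + 1) ≤ b)) →
      min (min a b) (σ + m) ≤ c := by
    rintro ha hb c hc m hm (h | h | h)
    · refine le_trans (min_le_min le_rfl ?_) (low2 ha hb c hc)
      have : σ + m ≤ σ + min σ 2 := by
        have := le_min hm h
        omega
      exact_mod_cast this
    · exact low4 ha hb c hc m h
    · exact (min_le_right _ _).trans (low3 ha hb c hc m hm h.1 h.2)
  -- examples
  have exA : σ ≤ a → σ ≤ b → ∃ c ∈ Values σ a b, c ≤ min (min a b) (2 * σ) := by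
    intro ha hb
    rcases le_total (min a b) (2 * σ) with h | h
    · rw [min_eq_left h]
      rcases le_total a b with h' | h'
      · rw [min_eq_left h']
        exact ex_nested hσ b ha
      · rw [min_eq_right h']
        obtain ⟨c, hc, hc'⟩ := ex_nested hσ a hb
        exact ⟨c, Values_comm hc, hc'⟩
    · rw [min_eq_right h]
      exact ex_two hσ ha hb
  -- zero
  have zero : ∀ {a b : ℕ∞}, a = 0 → ∀ c ∈ Values σ a b, c ≤ b := by
    rintro a b ha c ⟨U, X₁, X₂, C₁, C₂, h1, h2, rfl, rfl, rfl⟩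
    refine zero_case h1 h2 ?_
    have hlt : helly X₁ C₁ σ < σ := by
      rw [ha]
      exact_mod_cast hσ
    rw [small_card h1 hlt, ha]
  have exB : ∀ {a b : ℕ∞}, a < σ → ∃ c ∈ Values σ a b, c ≤ max a b := by
    intro a b ha
    rcases le_or_gt (σ : ℕ∞) b with hb | hb
    · obtain ⟨c, hc, hc'⟩ := ex_nested hσ a hb
      exact ⟨c, Values_comm hc, hc'.trans (le_max_right _ _)⟩
    · rcases le_total a b with h' | h'
      · obtain ⟨c, hc, hc'⟩ := ex_small hσ h'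
        exact ⟨c, hc, hc'.trans (le_max_right _ _)⟩
      · obtain ⟨c, hc, hc'⟩ := ex_small hσ h'
        exact ⟨c, Values_comm hc, hc'.trans (le_max_left _ _)⟩
  have least : (a < σ ∨ b < σ → IsLeast (Values σ a b) (max a b)) := by
    intro h
    refine ⟨?_, low1 h⟩
    have : ∃ c ∈ Values σ a b, c ≤ max a b := by
      rcases h with h | h
      · exact exB h
      · obtain ⟨c, hc, hc'⟩ := exB (b := a) h
        exact ⟨c, Values_comm hc, by rw [max_comm]; exact hc'⟩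
    obtain ⟨c, hc, hc'⟩ := this
    rw [le_antisymm (low1 h c hc) hc']
    exact hc
  refine ⟨?_, ?_, ?_, least, ?_, ?_, fun ha hb => ⟨lowAll ha hb, exA ha hb⟩⟩
  · intro ha hb
    have up : ∀ c ∈ Values σ a b, c ≤ a + b := by
      rintro c ⟨U, X₁, X₂, C₁, C₂, h1, h2, h3, h4, rfl⟩
      have := upper_small h1 h2 (by rw [h3]; exact ha) (by rw [h4]; exact hb)
      rw [h3, h4] at this
      exact this
    obtain ⟨c, hc, hc'⟩ := ex_disjoint hσ a b
    refine ⟨?_, up⟩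
    rw [le_antisymm hc' (up c hc)]
    exact hc
  · intro h
    have hlt : a < σ ∨ b < σ := by
      rcases h with h | h
      · left
        rw [h]
        exact_mod_cast hσ
      · right
        rw [h]
        exact_mod_cast hσ
    refine ⟨(least hlt).1, fun c hc => ?_⟩
    rcases h with h | h
    · exact (zero h c hc).trans (le_max_right _ _)
    · exact (zero h c (Values_comm hc)).trans (le_max_left _ _)
  · intro ha hb h
    refine ⟨?_, fun c _ => le_top⟩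
    rcases h with h | h
    · exact Values_comm (ex_top hσ hb h)
    · exact ex_top hσ ha h
  · intro ha hb h
    have hlow : ∀ c ∈ Values σ a b, min (min a b) (2 * σ) ≤ c := by
      intro c hc
      by_cases h2 : σ ≤ 2
      · have := lowAll ha hb c hc σ le_rfl (Or.inl h2)
        rw [two_mul]
        exact this
      · rcases h with h | h | ⟨m, hm, h⟩
        · exact absurd h h2
        · have := lowAll ha hb c hc 2 (by omega) (Or.inl le_rfl)
          refine (min_le_left _ _).trans (le_trans (le_min le_rfl ?_) this)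
          exact_mod_cast h
        · exact (min_le_left _ _).trans (le_trans (le_min le_rfl h) (low4 ha hb c hc m hm))
    obtain ⟨c, hc, hc'⟩ := exA ha hb
    refine ⟨?_, hlow⟩
    rw [le_antisymm (hlow c hc) hc']
    exact hc
  · intro ha hb
    have hs : (σ : ℕ∞) ≤ σ * (σ + 1) := by
      rw [mul_add, mul_one]
      exact le_add_self
    have hlow : ∀ c ∈ Values σ a b, 2 * (σ : ℕ∞) ≤ c := by
      intro c hc
      rw [two_mul]
      exact low3 (hs.trans ha) (hs.trans hb) c hc σ le_rfl ha hb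
    obtain ⟨c, hc, hc'⟩ := ex_two hσ (hs.trans ha) (hs.trans hb)
    refine ⟨?_, hlow⟩
    rw [le_antisymm (hlow c hc) hc']
    exact hc

end Pool.Agent.Results.MP_65fb70_co.BoundsAll
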