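import Mathlib

/-!
# The sigma-Helly number of the aligned sum

All spaces live inside an ambient type `U`; the sets `X₁`, `X₂` may overlap.
-/

namespace Pool.Agent.Results.MP_65fb70_co.WindowExample

open Set

/-- `(X, C)` is an aligned space. -/
structure IsAligned {U : Type} (X : Set U) (C : Set (Set U)) : Prop where
  sub : ∀ A ∈ C, A ⊆ X
  empty : ∅ ∈ C
  whole : X ∈ C
  inter : ∀ F : Set (Set U), F ⊆ C → F.Nonempty → ⋂₀ F ∈ C
  chain : ∀ F : Set (Set U), F ⊆ C → F.Nonempty → IsChain (· ⊆ ·) F → ⋃₀ F ∈ C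

/-- The hull of `S`. -/
def hull {U : Type} (C : Set (Set U)) (S : Set U) : Set U := ⋂₀ {A | A ∈ C ∧ S ⊆ A}

/-- The `σ`-core of `S`. -/
def core {U : Type} (C : Set (Set U)) (σ : ℕ) (S : Set U) : Set U :=
  {z | ∀ M : Set U, M ⊆ S → M.encard ≤ σ → z ∈ hull C (S \ M)}

/-- The `σ`-Helly number of `(X, C)`. -/
noncomputable def helly {U : Type} (X : Set U) (C : Set (Set U)) (σ : ℕ) : ℕ∞ :=
  sInf {k : ℕ∞ | ∃ j : ℕ, k = j ∧ ∀ S : Set U, S ⊆ X → (j : ℕ∞) + 1 ≤ S.encard →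
    (core C σ S).Nonempty}

/-- The convex sets of the aligned sum; its ground set is `X₁ ∪ X₂`. -/
def sumConv {U : Type} (X₁ : Set U) (C₁ : Set (Set U)) (X₂ : Set U) (C₂ : Set (Set U)) :
    Set (Set U) :=
  {D | ∃ A ∈ C₁, ∃ B ∈ C₂, D = (A \ X₂) ∪ (B \ X₁) ∪ (A ∩ B)}

section basic

variable {U : Type} {X : Set U} {C : Set (Set U)}

theorem hull_mono {S T : Set U} (h : S ⊆ T) : hull C S ⊆ hull C T := by
  intro z hz A hA
  exact hz A ⟨hA.1, h.trans hA.2⟩

theorem subset_hull (S : Set U) : S ⊆ hull C S := fun _ hz _ hA => hA.2 hz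

theorem hull_mem (hC : IsAligned X C) {S : Set U} (hS : S ⊆ X) : hull C S ∈ C :=
  hC.inter _ (fun _ hA => hA.1) ⟨X, hC.whole, hS⟩

theorem hull_empty (hC : IsAligned X C) : hull C ∅ = ∅ :=
  subset_eq_empty (fun _ hz => hz ∅ ⟨hC.empty, Subset.rfl⟩) rfl

theorem hull_sub (hC : IsAligned X C) {S : Set U} (hS : S ⊆ X) : hull C S ⊆ X :=
  fun _ hz => hz X ⟨hC.whole, hS⟩

theorem hull_trans (hC : IsAligned X C) {S : Set U} (hS : S ⊆ X) {u v : U}
    (hu : u ∈ hull C {v}) (hv : v ∈ hull C S) : u ∈ hull C S :=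
  hu _ ⟨hull_mem hC hS, singleton_subset_iff.2 hv⟩

theorem core_sub (hC : IsAligned X C) {σ : ℕ} {S : Set U} (hS : S ⊆ X) : core C σ S ⊆ X := by
  intro z hz
  have := hz ∅ (empty_subset _) (by simp)
  rw [sdiff_empty] at this
  exact hull_sub hC hS this

theorem core_small (hC : IsAligned X C) {σ : ℕ} {S : Set U} (hS : S.encard ≤ σ) :
    core C σ S = ∅ := by
  refine subset_eq_empty (fun z hz => ?_) rfl
  have := hz S Subset.rfl hS
  rw [sdiff_self, hull_empty hC] at this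
  exact this

theorem core_mono {σ : ℕ} {S T : Set U} (h : S ⊆ T) : core C σ S ⊆ core C σ T := by
  intro z hz M _ hM
  have h1 := hz (M ∩ S) inter_subset_right ((encard_le_encard inter_subset_left).trans hM)
  refine hull_mono ?_ h1
  rintro x ⟨hx, hxM⟩
  exact ⟨h hx, fun hm => hxM ⟨hm, hx⟩⟩

theorem helly_le {σ : ℕ} {j : ℕ}
    (h : ∀ S : Set U, S ⊆ X → (j : ℕ∞) + 1 ≤ S.encard → (core C σ S).Nonempty) :
    helly X C σ ≤ j := sInf_le ⟨j, rfl, h⟩

theorem le_helly {σ : ℕ} {S : Set U} (hS : S ⊆ X) (h : core C σ S = ∅) :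
    S.encard ≤ helly X C σ := by
  refine le_sInf ?_
  rintro k ⟨j, rfl, hj⟩
  by_contra hcon
  rw [not_le] at hcon
  have h1 : (j : ℕ∞) + 1 ≤ S.encard := Order.add_one_le_of_lt hcon
  have := hj S hS h1
  rw [h] at this
  exact Set.not_nonempty_empty this

theorem helly_le_encard {σ : ℕ} : helly X C σ ≤ X.encard := by
  by_cases hX : X.encard = ⊤
  · rw [hX]
    exact le_top
  · obtain ⟨j, hj⟩ := ENat.ne_top_iff_exists.1 hX
    rw [← hj]
    refine helly_le (fun S hS h => ?_)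
    exfalso
    have h1 := encard_le_encard hS
    rw [← hj] at h1
    have h2 := h.trans h1
    have h3 : j + 1 ≤ j := by exact_mod_cast h2
    omega

theorem helly_anti {X' : Set U} {C' : Set (Set U)} {σ : ℕ}
    (h : ∀ S : Set U, S ⊆ X' → S ⊆ X ∧ ((core C σ S).Nonempty → (core C' σ S).Nonempty)) :
    helly X' C' σ ≤ helly X C σ := by
  refine le_sInf ?_
  rintro k ⟨j, rfl, hj⟩
  exact helly_le (fun S hS hc => (h S hS).2 (hj S (h S hS).1 hc))

/-- If the `σ`-Helly number is at least `j + 1` there is a large set with empty core. -/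
theorem exists_of_lt {σ : ℕ} {j : ℕ} (h : (j : ℕ∞) < helly X C σ) :
    ∃ S : Set U, S ⊆ X ∧ (j : ℕ∞) + 1 ≤ S.encard ∧ core C σ S = ∅ := by
  by_contra hcon
  push Not at hcon
  exact absurd (helly_le hcon) (not_le.2 h)

end basic

section sums

variable {U : Type} {X₁ X₂ : Set U} {C₁ C₂ : Set (Set U)}

theorem can1 {a b : ℕ∞} (h : a + 1 ≤ b + 1) : a ≤ b :=
  (ENat.add_le_add_iff_right ENat.one_ne_top).1 h

theorem can2 {a b : ℕ∞} (h : a + 2 ≤ b + 2) : a ≤ b := by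
  refine (ENat.add_le_add_iff_right (k := 2) ?_).1 h
  exact ENat.natCast_ne_top 2

theorem sumConv_comm : sumConv X₁ C₁ X₂ C₂ = sumConv X₂ C₂ X₁ C₁ := by
  ext D
  constructor
  · rintro ⟨A, hA, B, hB, rfl⟩
    exact ⟨B, hB, A, hA, by rw [union_comm (A \ X₂), inter_comm]⟩
  · rintro ⟨A, hA, B, hB, rfl⟩
    exact ⟨B, hB, A, hA, by rw [union_comm (A \ X₁), inter_comm]⟩

theorem mem_hull_sum (h₁ : IsAligned X₁ C₁) (h₂ : IsAligned X₂ C₂) {T : Set U}
    (hT : T ⊆ X₁ ∪ X₂) (z : U) : z ∈ hull (sumConv X₁ C₁ X₂ C₂) T ↔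
      (z ∈ hull C₁ (T ∩ X₁) ∧ z ∉ X₂) ∨ (z ∈ hull C₂ (T ∩ X₂) ∧ z ∉ X₁) ∨
      (z ∈ hull C₁ (T ∩ X₁) ∧ z ∈ hull C₂ (T ∩ X₂)) := by
  constructor
  · intro hz
    have hm : (hull C₁ (T ∩ X₁) \ X₂) ∪ (hull C₂ (T ∩ X₂) \ X₁) ∪
        (hull C₁ (T ∩ X₁) ∩ hull C₂ (T ∩ X₂)) ∈ sumConv X₁ C₁ X₂ C₂ :=
      ⟨_, hull_mem h₁ inter_subset_right, _, hull_mem h₂ inter_subset_right, rfl⟩
    have hs : T ⊆ (hull C₁ (T ∩ X₁) \ X₂) ∪ (hull C₂ (T ∩ X₂) \ X₁) ∪
        (hull C₁ (T ∩ X₁) ∩ hull C₂ (T ∩ X₂)) := by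
      intro t ht
      by_cases a1 : t ∈ X₁
      · have b1 : t ∈ hull C₁ (T ∩ X₁) := subset_hull _ ⟨ht, a1⟩
        by_cases a2 : t ∈ X₂
        · exact Or.inr ⟨b1, subset_hull _ ⟨ht, a2⟩⟩
        · exact Or.inl (Or.inl ⟨b1, a2⟩)
      · have a2 : t ∈ X₂ := (hT ht).resolve_left a1
        exact Or.inl (Or.inr ⟨subset_hull _ ⟨ht, a2⟩, a1⟩)
    rcases hz _ ⟨hm, hs⟩ with (h | h) | h
    · exact Or.inl h
    · exact Or.inr (Or.inl h)
    · exact Or.inr (Or.inr h)
  · rintro hz D ⟨⟨A, hA, B, hB, rfl⟩, hTD⟩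
    have hTA : T ∩ X₁ ⊆ A := by
      rintro t ⟨ht, ht1⟩
      rcases hTD ht with (h | h) | h
      · exact h.1
      · exact absurd ht1 h.2
      · exact h.1
    have hTB : T ∩ X₂ ⊆ B := by
      rintro t ⟨ht, ht1⟩
      rcases hTD ht with (h | h) | h
      · exact absurd ht1 h.2
      · exact h.1
      · exact h.2
    rcases hz with h | h | h
    · exact Or.inl (Or.inl ⟨h.1 A ⟨hA, hTA⟩, h.2⟩)
    · exact Or.inl (Or.inr ⟨h.1 B ⟨hB, hTB⟩, h.2⟩)
    · exact Or.inr ⟨h.1 A ⟨hA, hTA⟩, h.2 B ⟨hB, hTB⟩⟩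

theorem core_restrict {C : Set (Set U)} {X S : Set U} {σ : ℕ} {z : U}
    (h : ∀ M : Set U, M ⊆ S → M.encard ≤ σ → z ∈ hull C ((S \ M) ∩ X)) :
    z ∈ core C σ (S ∩ X) := by
  intro M hM hc
  have := h M (hM.trans inter_subset_left) hc
  refine hull_mono ?_ this
  rintro x ⟨⟨h1, h2⟩, h3⟩
  exact ⟨⟨h1, h3⟩, h2⟩

theorem core_extend {C : Set (Set U)} {X S : Set U} {σ : ℕ} {z : U}
    (h : z ∈ core C σ (S ∩ X)) {M : Set U} (hc : M.encard ≤ σ) :
    z ∈ hull C ((S \ M) ∩ X) := by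
  have := h (M ∩ (S ∩ X)) inter_subset_right ((encard_le_encard inter_subset_left).trans hc)
  refine hull_mono ?_ this
  rintro x ⟨⟨h1, h2⟩, h3⟩
  exact ⟨⟨h1, fun hm => h3 ⟨hm, h1, h2⟩⟩, h2⟩

theorem mem_core_sum (h₁ : IsAligned X₁ C₁) (h₂ : IsAligned X₂ C₂) {S : Set U}
    (hS : S ⊆ X₁ ∪ X₂) (σ : ℕ) (z : U) : z ∈ core (sumConv X₁ C₁ X₂ C₂) σ S ↔
      (z ∈ core C₁ σ (S ∩ X₁) ∧ z ∉ X₂) ∨ (z ∈ core C₂ σ (S ∩ X₂) ∧ z ∉ X₁) ∨
      (z ∈ core C₁ σ (S ∩ X₁) ∧ z ∈ core C₂ σ (S ∩ X₂)) := by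
  constructor
  · intro hz
    have key : ∀ M : Set U, M ⊆ S → M.encard ≤ σ →
        (z ∈ hull C₁ ((S \ M) ∩ X₁) ∧ z ∉ X₂) ∨ (z ∈ hull C₂ ((S \ M) ∩ X₂) ∧ z ∉ X₁) ∨
        (z ∈ hull C₁ ((S \ M) ∩ X₁) ∧ z ∈ hull C₂ ((S \ M) ∩ X₂)) := fun M hM hc =>
      (mem_hull_sum h₁ h₂ (sdiff_subset.trans hS) z).1 (hz M hM hc)
    by_cases a2 : z ∈ X₂
    · by_cases a1 : z ∈ X₁
      · refine Or.inr (Or.inr ⟨core_restrict (fun M hM hc => ?_),
          core_restrict (fun M hM hc => ?_)⟩)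
        · rcases key M hM hc with h | h | h
          · exact h.1
          · exact absurd a1 h.2
          · exact h.1
        · rcases key M hM hc with h | h | h
          · exact absurd a2 h.2
          · exact h.1
          · exact h.2
      · refine Or.inr (Or.inl ⟨core_restrict (fun M hM hc => ?_), a1⟩)
        rcases key M hM hc with h | h | h
        · exact absurd a2 h.2
        · exact h.1
        · exact h.2
    · refine Or.inl ⟨core_restrict (fun M hM hc => ?_), a2⟩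
      rcases key M hM hc with h | h | h
      · exact h.1
      · exact absurd (hull_sub h₂ inter_subset_right h.1) a2
      · exact h.1
  · intro hz M hM hc
    rw [mem_hull_sum h₁ h₂ (sdiff_subset.trans hS)]
    rcases hz with h | h | h
    · exact Or.inl ⟨core_extend h.1 hc, h.2⟩
    · exact Or.inr (Or.inl ⟨core_extend h.1 hc, h.2⟩)
    · exact Or.inr (Or.inr ⟨core_extend h.1 hc, core_extend h.2 hc⟩)

end sums

section star

variable {U : Type}

/-- Subsets of `X` that miss `G` or contain `p`. -/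
def starC (X G : Set U) (p : U) : Set (Set U) := {A | A ⊆ X ∧ (A ∩ G = ∅ ∨ p ∈ A)}

theorem star_aligned {X G : Set U} {p : U} (hG : G ⊆ X) (hp : p ∈ G) :
    IsAligned X (starC X G p) where
  sub := fun A hA => hA.1
  empty := ⟨empty_subset _, Or.inl (empty_inter _)⟩
  whole := ⟨Subset.rfl, Or.inr (hG hp)⟩
  inter := by
    rintro F hF ⟨A₀, hA₀⟩
    refine ⟨(sInter_subset_of_mem hA₀).trans (hF hA₀).1, ?_⟩
    by_cases h : ∃ A ∈ F, A ∩ G = ∅
    · obtain ⟨A, hA, hAG⟩ := h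
      exact Or.inl (subset_eq_empty (inter_subset_inter_left _ (sInter_subset_of_mem hA)) hAG)
    · push Not at h
      refine Or.inr (fun A hA => ?_)
      exact (hF hA).2.resolve_left (nonempty_iff_ne_empty.1 (h A hA))
  chain := by
    rintro F hF - -
    refine ⟨sUnion_subset (fun A hA => (hF hA).1), ?_⟩
    by_cases h : (⋃₀ F) ∩ G = ∅
    · exact Or.inl h
    · obtain ⟨x, ⟨A, hA, hxA⟩, hxG⟩ := nonempty_iff_ne_empty.2 h
      refine Or.inr ⟨A, hA, ?_⟩
      refine (hF hA).2.resolve_left (fun h0 => ?_)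
      have : x ∈ A ∩ G := ⟨hxA, hxG⟩
      rw [h0] at this
      exact this

theorem mem_hull_star {X G : Set U} {p : U} (hG : G ⊆ X) (hp : p ∈ G) {T : Set U} (hT : T ⊆ X)
    (z : U) : z ∈ hull (starC X G p) T ↔ z ∈ T ∨ (z = p ∧ (T ∩ G).Nonempty) := by
  constructor
  · intro hz
    by_cases h : (T ∩ G).Nonempty
    · have := hz (insert p T) ⟨⟨insert_subset (hG hp) hT, Or.inr (mem_insert _ _)⟩,
        subset_insert _ _⟩
      rcases this with h1 | h1
      · exact Or.inr ⟨h1, h⟩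
      · exact Or.inl h1
    · exact Or.inl (hz T ⟨⟨hT, Or.inl (not_nonempty_iff_eq_empty.1 h)⟩, Subset.rfl⟩)
  · rintro (h | ⟨rfl, h⟩)
    · exact subset_hull _ h
    · rintro A ⟨⟨hA1, hA2⟩, hTA⟩
      refine hA2.resolve_left (fun h0 => ?_)
      obtain ⟨x, hx⟩ := h
      have : x ∈ A ∩ G := ⟨hTA hx.1, hx.2⟩
      rw [h0] at this
      exact this

theorem mem_core_star {X G : Set U} {p : U} (hG : G ⊆ X) (hp : p ∈ G) {S : Set U} (hS : S ⊆ X)
    {σ : ℕ} (hσ : 1 ≤ σ) (z : U) :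
    z ∈ core (starC X G p) σ S ↔ z = p ∧ (σ : ℕ∞) < (S ∩ G).encard := by
  constructor
  · intro hz
    have hzp : z = p := by
      have h1 := hz (S ∩ {z}) inter_subset_left (by
        refine (encard_le_encard inter_subset_right).trans ?_
        rw [encard_singleton]
        exact_mod_cast hσ)
      rw [mem_hull_star hG hp (sdiff_subset.trans hS)] at h1
      rcases h1 with h1 | h1
      · exact absurd ⟨h1.1, rfl⟩ h1.2
      · exact h1.1
    refine ⟨hzp, ?_⟩
    by_contra hcon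
    rw [not_lt] at hcon
    have h1 := hz (S ∩ G) inter_subset_left hcon
    rw [mem_hull_star hG hp (sdiff_subset.trans hS)] at h1
    rcases h1 with h1 | ⟨-, x, hx, hxG⟩
    · apply h1.2
      rw [hzp] at h1 ⊢
      exact ⟨h1.1, hp⟩
    · exact hx.2 ⟨hx.1, hxG⟩
  · rintro ⟨rfl, h⟩ M hM hc
    rw [mem_hull_star hG hp (sdiff_subset.trans hS)]
    refine Or.inr ⟨rfl, ?_⟩
    by_contra hcon
    have h1 : S ∩ G ⊆ M := by
      rintro x ⟨hx, hxG⟩
      by_contra hxM
      exact hcon ⟨x, ⟨hx, hxM⟩, hxG⟩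
    exact absurd (h.trans_le ((encard_le_encard h1).trans hc)) (lt_irrefl _)

theorem helly_star {X G : Set U} {p : U} (hG : G ⊆ X) (hp : p ∈ G) {σ : ℕ} (hσ : 1 ≤ σ) :
    helly X (starC X G p) σ = (X \ G).encard + min G.encard σ := by
  apply le_antisymm
  · by_cases htop : (X \ G).encard + min G.encard σ = ⊤
    · rw [htop]
      exact le_top
    · obtain ⟨j, hj⟩ := ENat.ne_top_iff_exists.1 htop
      rw [← hj]
      refine helly_le (fun S hS h => ⟨p, ?_⟩)
      rw [mem_core_star hG hp hS hσ]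
      refine ⟨rfl, ?_⟩
      by_contra hcon
      rw [not_lt] at hcon
      have h1 : S.encard ≤ (X \ G).encard + min G.encard σ := by
        rw [← encard_sdiff_add_encard_inter S G]
        refine add_le_add (encard_le_encard (sdiff_subset_sdiff_left hS)) ?_
        exact le_min (encard_le_encard inter_subset_right) hcon
      rw [← hj] at h1
      have h2 := h.trans h1
      have h3 : j + 1 ≤ j := by exact_mod_cast h2
      omega
  · obtain ⟨G', hG', hc⟩ := Set.exists_subset_encard_eq (s := G) (k := min G.encard σ)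
      (min_le_left _ _)
    have hdis : Disjoint (X \ G) G' := by
      rw [Set.disjoint_left]
      intro x hx hx'
      exact hx.2 (hG' hx')
    rw [← hc, ← encard_union_eq hdis]
    refine le_helly (union_subset sdiff_subset (hG'.trans hG)) (subset_eq_empty (fun z hz => ?_) rfl)
    rw [mem_core_star hG hp (union_subset sdiff_subset (hG'.trans hG)) hσ] at hz
    have h1 : ((X \ G) ∪ G') ∩ G = G' := by
      ext x
      constructor
      · rintro ⟨hx | hx, hxG⟩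
        · exact absurd hxG hx.2
        · exact hx
      · intro hx
        exact ⟨Or.inr hx, hG' hx⟩
    rw [h1, hc] at hz
    exact absurd (hz.2.trans_le (min_le_right _ _)) (lt_irrefl _)

end star

section example_

/-- The convex sets of the second space: sets with fewer than `r` points, sets containing both
`u₁` and `u₂`, sets containing `u₂` inside `A ∪ {u₂}` and sets containing `u₁` inside
`B ∪ {u₁}`. -/
def twoC {U : Type} (X K₁ K₂ : Set U) (u₁ u₂ : U) (r : ℕ) : Set (Set U) :=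
  {D | D ⊆ X ∧ (D.encard < r ∨ (u₁ ∈ D ∧ u₂ ∈ D) ∨ (u₂ ∈ D ∧ D ⊆ K₁) ∨ (u₁ ∈ D ∧ D ⊆ K₂))}

theorem two_aligned {U : Type} {X K₁ K₂ : Set U} {u₁ u₂ : U} {r : ℕ} (hX : X.Finite)
    (hr : 1 ≤ r) (hu₁ : u₁ ∈ X) (hu₂ : u₂ ∈ X) (hdis : ∀ x, x ∈ K₁ → x ∉ K₂) :
    IsAligned X (twoC X K₁ K₂ u₁ u₂ r) where
  sub := fun A hA => hA.1
  empty := by
    refine ⟨empty_subset _, Or.inl ?_⟩
    rw [encard_empty]
    exact_mod_cast hr
  whole := ⟨Subset.rfl, Or.inr (Or.inl ⟨hu₁, hu₂⟩)⟩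
  inter := by
    rintro F hF ⟨A₀, hA₀⟩
    refine ⟨(sInter_subset_of_mem hA₀).trans (hF hA₀).1, ?_⟩
    by_cases h1 : ∃ A ∈ F, A.encard < r
    · obtain ⟨A, hA, hAr⟩ := h1
      exact Or.inl ((encard_le_encard (sInter_subset_of_mem hA)).trans_lt hAr)
    · push Not at h1
      have h2 : ∀ A ∈ F, (u₁ ∈ A ∧ u₂ ∈ A) ∨ (u₂ ∈ A ∧ A ⊆ K₁) ∨ (u₁ ∈ A ∧ A ⊆ K₂) :=
        fun A hA => (hF hA).2.resolve_left (not_lt.2 (h1 A hA))
      by_cases hb : ∃ A ∈ F, A ⊆ K₁
      · obtain ⟨A, hA, hAK⟩ := hb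
        by_cases hc : ∃ A' ∈ F, A' ⊆ K₂
        · obtain ⟨A', hA', hAK'⟩ := hc
          left
          have : ⋂₀ F = ∅ := by
            refine subset_eq_empty (fun x hx => ?_) rfl
            exact hdis x (hAK (hx A hA)) (hAK' (hx A' hA'))
          rw [this, encard_empty]
          exact_mod_cast hr
        · push Not at hc
          refine Or.inr (Or.inr (Or.inl ⟨fun B hB => ?_, (sInter_subset_of_mem hA).trans hAK⟩))
          rcases h2 B hB with h | h | h
          · exact h.2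
          · exact h.1
          · exact absurd h.2 (hc B hB)
      · push Not at hb
        by_cases hc : ∃ A' ∈ F, A' ⊆ K₂
        · obtain ⟨A', hA', hAK'⟩ := hc
          refine Or.inr (Or.inr (Or.inr ⟨fun B hB => ?_, (sInter_subset_of_mem hA').trans hAK'⟩))
          rcases h2 B hB with h | h | h
          · exact h.1
          · exact absurd h.2 (hb B hB)
          · exact h.1
        · push Not at hc
          refine Or.inr (Or.inl ⟨fun B hB => ?_, fun B hB => ?_⟩)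
          · rcases h2 B hB with h | h | h
            · exact h.1
            · exact absurd h.2 (hb B hB)
            · exact h.1
          · rcases h2 B hB with h | h | h
            · exact h.2
            · exact h.1
            · exact absurd h.2 (hc B hB)
  chain := by
    rintro F hF hne hch
    have hfin : F.Finite := hX.finite_subsets.subset (fun A hA => (hF hA).1)
    obtain ⟨M, hM⟩ := hfin.exists_maximal hne
    have : ⋃₀ F = M := by
      apply Subset.antisymm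
      · refine sUnion_subset (fun A hA => ?_)
        rcases hch.total hA hM.1 with h | h
        · exact h
        · exact hM.2 hA h
      · exact subset_sUnion_of_mem hM.1
    rw [this]
    exact hF hM.1

theorem mem_two_hull {U : Type} {X K₁ K₂ R : Set U} {u₁ u₂ : U} {r : ℕ}
    (hR : (r : ℕ∞) ≤ R.encard) :
    (¬ R ⊆ K₂ → u₂ ∈ hull (twoC X K₁ K₂ u₁ u₂ r) R) ∧
    (¬ R ⊆ K₁ → u₁ ∈ hull (twoC X K₁ K₂ u₁ u₂ r) R) := by
  constructor
  · rintro h D ⟨⟨-, hD⟩, hRD⟩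
    rcases hD with hD | hD | hD | hD
    · exact absurd (hR.trans (encard_le_encard hRD)) (not_le.2 hD)
    · exact hD.2
    · exact hD.1
    · exact absurd (hRD.trans hD.2) h
  · rintro h D ⟨⟨-, hD⟩, hRD⟩
    rcases hD with hD | hD | hD | hD
    · exact absurd (hR.trans (encard_le_encard hRD)) (not_le.2 hD)
    · exact hD.1
    · exact absurd (hRD.trans hD.2) h
    · exact hD.1

theorem row_encard (i : ℕ) : ({x : ℕ × ℕ | x.1 = i}).encard = ⊤ := by
  refine Set.Infinite.encard_eq ?_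
  refine Set.infinite_of_injective_forall_mem (f := fun n : ℕ => (i, n)) ?_ (fun n => rfl)
  intro m n h
  exact (Prod.mk.inj h).2

theorem row_exists (i : ℕ) (c : ℕ∞) :
    ∃ D : Set (ℕ × ℕ), (∀ x ∈ D, x.1 = i) ∧ D.encard = c := by
  obtain ⟨D, hD, hc⟩ := Set.exists_subset_encard_eq (s := {x : ℕ × ℕ | x.1 = i}) (k := c)
    (by rw [row_encard]; exact le_top)
  exact ⟨D, hD, hc⟩

/-- For every `σ ≥ 4` there are two aligned spaces whose `σ`-Helly numbers are at least `2σ`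
while the `σ`-Helly number of their aligned sum is smaller than `2σ`. -/
theorem result (σ : ℕ) (hσ : 4 ≤ σ) :
    ∃ (U : Type) (X₁ X₂ : Set U) (C₁ C₂ : Set (Set U)), IsAligned X₁ C₁ ∧ IsAligned X₂ C₂ ∧
      ((2 * σ : ℕ) : ℕ∞) ≤ helly X₁ C₁ σ ∧ ((2 * σ : ℕ) : ℕ∞) ≤ helly X₂ C₂ σ ∧
      helly (X₁ ∪ X₂) (sumConv X₁ C₁ X₂ C₂) σ ≤ ((σ + (σ + 1) / 2 + 1 : ℕ) : ℕ∞) := by
  obtain ⟨A, hA, hAc⟩ := row_exists 1 ((σ - 1 : ℕ) : ℕ∞)
  obtain ⟨B, hB, hBc⟩ := row_exists 2 ((σ - 1 : ℕ) : ℕ∞)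
  obtain ⟨G, hG, hGc⟩ := row_exists 3 ((σ : ℕ) : ℕ∞)
  have fA : A.Finite := finite_of_encard_eq_coe hAc
  have fB : B.Finite := finite_of_encard_eq_coe hBc
  have fG : G.Finite := finite_of_encard_eq_coe hGc
  set w : ℕ × ℕ := (0, 0) with hw
  set u₁ : ℕ × ℕ := (0, 1) with hu₁
  set u₂ : ℕ × ℕ := (0, 2) with hu₂
  set r : ℕ := (σ + 1) / 2 + 1 with hr
  have hr2 : σ ≤ 2 * (r - 1) := by omega
  have hr1 : 1 ≤ r := by omega
  have nA : ∀ n, ((0, n) : ℕ × ℕ) ∉ A := fun n h => by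
    have := hA _ h
    simp at this
  have nB : ∀ n, ((0, n) : ℕ × ℕ) ∉ B := fun n h => by
    have := hB _ h
    simp at this
  have nG : ∀ n, ((0, n) : ℕ × ℕ) ∉ G := fun n h => by
    have := hG _ h
    simp at this
  have dAB : ∀ x, x ∈ A → x ∉ B := fun x h h' => by
    have e1 := hA x h
    have e2 := hB x h'
    omega
  have dAG : ∀ x, x ∈ A → x ∉ G := fun x h h' => by
    have e1 := hA x h
    have e2 := hG x h'
    omega
  have dBG : ∀ x, x ∈ B → x ∉ G := fun x h h' => by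
    have e1 := hB x h
    have e2 := hG x h'
    omega
  set G₁ : Set (ℕ × ℕ) := insert w (A ∪ B) with hG₁
  set X₁ : Set (ℕ × ℕ) := G₁ ∪ G with hX₁
  set K₁ : Set (ℕ × ℕ) := insert u₂ A with hK₁
  set K₂ : Set (ℕ × ℕ) := insert u₁ B with hK₂
  set X₂ : Set (ℕ × ℕ) := (K₁ ∪ K₂) ∪ G with hX₂
  have g₁ : G₁ ⊆ X₁ := subset_union_left
  have p₁ : w ∈ G₁ := mem_insert _ _
  have fX₁ : X₁.Finite := ((fA.union fB).insert w).union fG
  have fX₂ : X₂.Finite := ((fA.insert u₂).union (fB.insert u₁)).union fG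
  have wX₂ : w ∉ X₂ := by
    rintro (((h | h) | (h | h)) | h)
    · simp [hw, hu₂] at h
    · exact nA _ h
    · simp [hw, hu₁] at h
    · exact nB _ h
    · exact nG _ h
  have u₁X : u₁ ∉ X₁ := by
    rintro ((h | h | h) | h)
    · simp [hw, hu₁] at h
    · exact nA _ h
    · exact nB _ h
    · exact nG _ h
  have u₂X : u₂ ∉ X₁ := by
    rintro ((h | h | h) | h)
    · simp [hw, hu₂] at h
    · exact nA _ h
    · exact nB _ h
    · exact nG _ h
  have dK : ∀ x, x ∈ K₁ → x ∉ K₂ := by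
    rintro x (rfl | h) (h' | h')
    · simp [hu₁, hu₂] at h'
    · exact nB _ h'
    · rw [h'] at h
      exact nA _ h
    · exact dAB x h h'
  have hk₁ : K₁ ⊆ X₂ := fun x hx => Or.inl (Or.inl hx)
  have hk₂ : K₂ ⊆ X₂ := fun x hx => Or.inl (Or.inr hx)
  have hu₁X₂ : u₁ ∈ X₂ := hk₂ (mem_insert _ _)
  have hu₂X₂ : u₂ ∈ X₂ := hk₁ (mem_insert _ _)
  have cK₁ : K₁.encard = σ := by
    rw [hK₁, encard_insert_of_notMem (nA _), hAc]
    have : σ - 1 + 1 = σ := by omega
    exact_mod_cast this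
  have cK₂ : K₂.encard = σ := by
    rw [hK₂, encard_insert_of_notMem (nB _), hBc]
    have : σ - 1 + 1 = σ := by omega
    exact_mod_cast this
  have h1 := star_aligned g₁ p₁
  have h2 : IsAligned X₂ (twoC X₂ K₁ K₂ u₁ u₂ r) := two_aligned fX₂ hr1 hu₁X₂ hu₂X₂ dK
  refine ⟨ℕ × ℕ, X₁, X₂, starC X₁ G₁ w, twoC X₂ K₁ K₂ u₁ u₂ r, h1, h2, ?_, ?_, ?_⟩
  · rw [helly_star g₁ p₁ (by omega)]
    have e1 : X₁ \ G₁ = G := by
      ext x
      constructor
      · rintro ⟨h | h, h'⟩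
        · exact absurd h h'
        · exact h
      · intro h
        refine ⟨Or.inr h, ?_⟩
        rintro (h' | h' | h')
        · rw [h'] at h
          exact nG _ h
        · exact dAG x h' h
        · exact dBG x h' h
    have e2 : (σ : ℕ∞) ≤ G₁.encard := by
      have h3 : (A ∪ B).encard = ((σ - 1 : ℕ) : ℕ∞) + ((σ - 1 : ℕ) : ℕ∞) := by
        rw [encard_union_eq (Set.disjoint_left.2 (fun x hx => dAB x hx)), hAc, hBc]
      refine le_trans ?_ (encard_le_encard (subset_insert _ _))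
      rw [h3]
      have : σ ≤ (σ - 1) + (σ - 1) := by omega
      exact_mod_cast this
    rw [e1, hGc, min_eq_right e2]
    push_cast
    rw [two_mul]
  · have hP : (K₁ ∪ K₂).encard = ((2 * σ : ℕ) : ℕ∞) := by
      rw [encard_union_eq (Set.disjoint_left.2 (fun x hx => dK x hx)), cK₁, cK₂]
      push_cast
      rw [two_mul]
    rw [← hP]
    refine le_helly (union_subset hk₁ hk₂) (subset_eq_empty (fun u hu => ?_) rfl)
    have a1 : u ∈ K₁ := by
      refine hu K₂ subset_union_right cK₂.le K₁ ⟨⟨hk₁, Or.inr (Or.inr (Or.inl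
        ⟨mem_insert _ _, Subset.rfl⟩))⟩, ?_⟩
      rintro x ⟨h | h, h'⟩
      · exact h
      · exact absurd h h'
    have a2 : u ∈ K₂ := by
      refine hu K₁ subset_union_left cK₁.le K₂ ⟨⟨hk₂, Or.inr (Or.inr (Or.inr
        ⟨mem_insert _ _, Subset.rfl⟩))⟩, ?_⟩
      rintro x ⟨h | h, h'⟩
      · exact absurd h h'
      · exact h
    exact dK u a1 a2
  · refine helly_le (fun S hS hc => ?_)
    by_contra hemp
    rw [not_nonempty_iff_eq_empty] at hemp
    have hno : ∀ z, z ∉ core (sumConv X₁ (starC X₁ G₁ w) X₂ (twoC X₂ K₁ K₂ u₁ u₂ r)) σ S := by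
      intro z hz
      rw [hemp] at hz
      exact hz
    have fS : S.Finite := (fX₁.union fX₂).subset hS
    -- the point `w`
    have c1 : (S ∩ G₁).ncard ≤ σ := by
      by_contra hcon
      refine hno w ((mem_core_sum h1 h2 hS σ w).2 (Or.inl ⟨?_, wX₂⟩))
      rw [mem_core_star g₁ p₁ inter_subset_right (by omega), inter_assoc, inter_eq_right.2 g₁]
      refine ⟨rfl, ?_⟩
      rw [← (fS.subset inter_subset_left).cast_ncard_eq]
      exact_mod_cast not_le.1 hcon
    have c2 : σ + r + 1 ≤ S.ncard := by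
      rw [← fS.cast_ncard_eq] at hc
      have h3 : σ + (σ + 1) / 2 + 1 + 1 ≤ S.ncard := by exact_mod_cast hc
      omega
    have c3 : S.ncard ≤ (S ∩ X₂).ncard + (S ∩ {w}).ncard := by
      refine (ncard_le_ncard ?_ ((fS.subset inter_subset_left).union
        (fS.subset inter_subset_left))).trans (ncard_union_le _ _)
      intro x hx
      rcases hS hx with ((h | h | h) | h) | h
      · exact Or.inr ⟨hx, h⟩
      · exact Or.inl ⟨hx, hk₁ (Or.inr h)⟩
      · exact Or.inl ⟨hx, hk₂ (Or.inr h)⟩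
      · exact Or.inl ⟨hx, Or.inr h⟩
      · exact Or.inl ⟨hx, h⟩
    have fS₂ : (S ∩ X₂).Finite := fS.subset inter_subset_left
    -- bad large subsets
    have bad : ∀ z, z ∈ X₂ → z ∉ X₁ → ∃ R : Set (ℕ × ℕ), R ⊆ S ∩ X₂ ∧
        (S ∩ X₂).ncard ≤ R.ncard + σ ∧ z ∉ hull (twoC X₂ K₁ K₂ u₁ u₂ r) R := by
      intro z hz2 hz1
      by_contra hcon
      push Not at hcon
      refine hno z ((mem_core_sum h1 h2 hS σ z).2 (Or.inr (Or.inl ⟨?_, hz1⟩)))
      intro M hM hMc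
      refine hcon _ sdiff_subset ?_
      have fM : M.Finite := fS₂.subset hM
      have h4 : M.ncard ≤ σ := by
        rw [← fM.cast_ncard_eq] at hMc
        exact_mod_cast hMc
      have h5 := ncard_sdiff_add_ncard_of_subset hM fS₂
      omega
    obtain ⟨R₂, hR₂, cR₂, bR₂⟩ := bad u₂ hu₂X₂ u₂X
    obtain ⟨R₁, hR₁, cR₁, bR₁⟩ := bad u₁ hu₁X₂ u₁X
    have c4 : (S ∩ {w}).ncard ≤ 1 := by
      refine (ncard_le_ncard inter_subset_right (finite_singleton w)).trans ?_
      rw [ncard_singleton]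
    have big : ∀ R : Set (ℕ × ℕ), R ⊆ S ∩ X₂ → (S ∩ X₂).ncard ≤ R.ncard + σ →
        (r : ℕ∞) ≤ R.encard := by
      intro R hR hRc
      rw [← (fS₂.subset hR).cast_ncard_eq]
      have : r ≤ R.ncard := by omega
      exact_mod_cast this
    have k₂ : R₂ ⊆ K₂ := by
      by_contra hcon
      exact bR₂ ((mem_two_hull (big R₂ hR₂ cR₂)).1 hcon)
    have k₁ : R₁ ⊆ K₁ := by
      by_contra hcon
      exact bR₁ ((mem_two_hull (big R₁ hR₁ cR₁)).2 hcon)
    have c5 : R₁.ncard ≤ (S ∩ A).ncard + 1 := by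
      have h6 : R₁ ⊆ insert u₂ (S ∩ A) := by
        intro x hx
        rcases k₁ hx with h | h
        · exact Or.inl h
        · exact Or.inr ⟨(hR₁ hx).1, h⟩
      exact (ncard_le_ncard h6 ((fS.subset inter_subset_left).insert _)).trans
        (ncard_insert_le _ _)
    have c6 : R₂.ncard ≤ (S ∩ B).ncard + 1 := by
      have h6 : R₂ ⊆ insert u₁ (S ∩ B) := by
        intro x hx
        rcases k₂ hx with h | h
        · exact Or.inl h
        · exact Or.inr ⟨(hR₂ hx).1, h⟩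
      exact (ncard_le_ncard h6 ((fS.subset inter_subset_left).insert _)).trans
        (ncard_insert_le _ _)
    have c7 : (S ∩ {w}).ncard + ((S ∩ A).ncard + (S ∩ B).ncard) ≤ (S ∩ G₁).ncard := by
      have d1 : Disjoint (S ∩ A) (S ∩ B) :=
        Set.disjoint_left.2 (fun x hx hx' => dAB x hx.2 hx'.2)
      have d2 : Disjoint (S ∩ {w}) (S ∩ A ∪ S ∩ B) := by
        rw [Set.disjoint_left]
        rintro x ⟨-, hx⟩ (hx' | hx')
        · rw [mem_singleton_iff.1 hx] at hx'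
          exact nA _ hx'.2
        · rw [mem_singleton_iff.1 hx] at hx'
          exact nB _ hx'.2
      rw [← ncard_union_eq d1 (fS.subset inter_subset_left) (fS.subset inter_subset_left),
        ← ncard_union_eq d2 (fS.subset inter_subset_left)
          ((fS.subset inter_subset_left).union (fS.subset inter_subset_left))]
      refine ncard_le_ncard ?_ (fS.subset inter_subset_left)
      rintro x (⟨h, h'⟩ | ⟨h, h'⟩ | ⟨h, h'⟩)
      · exact ⟨h, Or.inl h'⟩
      · exact ⟨h, Or.inr (Or.inl h')⟩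
      · exact ⟨h, Or.inr (Or.inr h')⟩
    omega

end example_

end Pool.Agent.Results.MP_65fb70_co.WindowExample
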